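import Mathlib

namespace Pool.Agent.Results.MP_25ed80_an.NoEmbedding

/-! ### Definitions used in the statement -/

section

open Set Filter Topology
open scoped Ordinal

/-- The segment `[0, ω₁]` of ordinals, with its order topology. -/
abbrev Seg : Type 1 := Set.Iic (ω_ 1 : Ordinal.{0})

instance : CompactSpace Seg := by
  rw [← isCompact_iff_compactSpace]
  have : Set.Iic (ω_ 1 : Ordinal.{0}) = Set.Icc ⊥ (ω_ 1) := Set.Icc_bot.symm
  rw [this]
  exact isCompact_Icc

/-- Every nonempty subset has a point isolated in it. -/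
def IsScattered (K : Type) [TopologicalSpace K] : Prop :=
  ∀ S : Set K, S.Nonempty → ∃ x ∈ S, ∃ U : Set K, IsOpen U ∧ U ∩ S = {x}

/-- Points of `ℝ^Γ` with countable support. -/
def SigmaProd (Γ : Type) : Set (Γ → ℝ) := {x | {γ | x γ ≠ 0}.Countable}

/-- `K` is Valdivia. -/
def IsValdivia (K : Type) [TopologicalSpace K] : Prop :=
  ∃ (Γ : Type) (h : K → Γ → ℝ), IsEmbedding h ∧
    Set.range h ⊆ closure (Set.range h ∩ SigmaProd Γ)

/-- `X` is linearly isomorphic to a closed subspace of `Y`. -/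
def EmbedsInto (X : Type*) [NormedAddCommGroup X] [NormedSpace ℝ X] (Y : Type*)
    [NormedAddCommGroup Y] [NormedSpace ℝ Y] : Prop :=
  ∃ S : Submodule ℝ Y, IsClosed (S : Set Y) ∧ Nonempty (X ≃L[ℝ] S)

end

/-! ### The proof -/

section

open Set

open Classical in
/-- Number of terms used at stage `n`. -/
noncomputable def kk (s : ℕ → ℕ → ℕ) (n : ℕ) : ℕ :=
  Nat.findGreatest (fun k => ∀ m ≥ n, k * ∑ i ∈ Finset.range k, (1 + s i m) ≤ m) n

theorem kk_spec (s : ℕ → ℕ → ℕ) (n : ℕ) :
    ∀ m ≥ n, kk s n * ∑ i ∈ Finset.range (kk s n), (1 + s i m) ≤ m := by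
  classical
  have := Nat.findGreatest_spec (P := fun k => ∀ m ≥ n, k * ∑ i ∈ Finset.range k, (1 + s i m) ≤ m)
    (Nat.zero_le n) (by intro m _; simp)
  exact this

theorem kk_mono (s : ℕ → ℕ → ℕ) {n n' : ℕ} (h : n ≤ n') : kk s n ≤ kk s n' := by
  classical
  apply Nat.le_findGreatest
  · exact (Nat.findGreatest_le n).trans h
  · intro m hm
    exact kk_spec s n m (h.trans hm)

theorem kk_tendsto {s : ℕ → ℕ → ℕ} (hs : ∀ i k, ∃ N, ∀ n ≥ N, k * s i n ≤ n) (k : ℕ) :
    ∃ N, ∀ n ≥ N, k ≤ kk s n := by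
  classical
  rcases Nat.eq_zero_or_pos k with rfl | hk
  · exact ⟨0, fun n _ => Nat.zero_le _⟩
  have h1 : ∀ i, ∃ N, ∀ n ≥ N, (2 * k ^ 2) * s i n ≤ n := fun i => hs i _
  choose N hN using h1
  refine ⟨max (2 * k ^ 2) (∑ i ∈ Finset.range k, N i), fun n hn => ?_⟩
  have hn1 : 2 * k ^ 2 ≤ n := (le_max_left _ _).trans hn
  have hn2 : ∀ i ∈ Finset.range k, N i ≤ n := fun i hi =>
    (Finset.single_le_sum (f := N) (fun _ _ => Nat.zero_le _) hi).trans ((le_max_right _ _).trans hn)
  apply Nat.le_findGreatest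
  · nlinarith
  · intro m hm
    have h2 : ∑ i ∈ Finset.range k, (2 * k ^ 2) * s i m ≤ ∑ _i ∈ Finset.range k, m :=
      Finset.sum_le_sum fun i hi => hN i m ((hn2 i hi).trans hm)
    rw [← Finset.mul_sum, Finset.sum_const, Finset.card_range, smul_eq_mul] at h2
    have h3 : 2 * k * ∑ i ∈ Finset.range k, s i m ≤ m := by
      have : k * (2 * k * ∑ i ∈ Finset.range k, s i m) ≤ k * m := by
        calc _ = 2 * k ^ 2 * ∑ i ∈ Finset.range k, s i m := by ring
          _ ≤ k * m := h2
      exact Nat.le_of_mul_le_mul_left this hk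
    rw [Finset.sum_add_distrib, Finset.sum_const, Finset.card_range, smul_eq_mul, mul_one]
    have h4 : 2 * k ^ 2 ≤ m := hn1.trans hm
    nlinarith

variable {W : Type*} [LinearOrder W] [WellFoundedLT W]

/-- A transitive, increasing sequence of finite sets of predecessors with uniform size bounds. -/
theorem exists_P (hc : ∀ a : W, (Iio a).Countable) : ∃ P : W → ℕ → Finset W,
    (∀ a n, ∀ b ∈ P a n, b < a) ∧ (∀ a n m, n ≤ m → P a n ⊆ P a m) ∧
    (∀ a n, ∀ b ∈ P a n, P b n ⊆ P a n) ∧ (∀ a b, b < a → ∃ n, b ∈ P a n) ∧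
    (∀ a n, (P a n).card ≤ n) := by
  classical
  have he : ∀ a : W, (Iio a).Nonempty → ∃ e : ℕ → W, (∀ i, e i < a) ∧ ∀ b < a, ∃ i, e i = b := by
    intro a ha
    obtain ⟨e, he⟩ := (hc a).exists_eq_range ha
    refine ⟨e, fun i => ?_, fun b hb => ?_⟩
    · have : e i ∈ Iio a := by rw [he]; exact mem_range_self i
      exact this
    · have : b ∈ range e := by rw [← he]; exact hb
      exact this
  choose! e he1 he2 using he
  let F : (a : W) → ((b : W) → b < a → ℕ → Finset W) → ℕ → Finset W := fun a rec n =>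
    if h : (Iio a).Nonempty then
      (Finset.range (kk (fun i m => (rec (e a i) (he1 a h i) m).card) n)).biUnion
        (fun i => insert (e a i) (rec (e a i) (he1 a h i) n))
    else ∅
  let P : W → ℕ → Finset W := WellFounded.fix (C := fun _ => ℕ → Finset W) wellFounded_lt F
  have hP : ∀ a n, (Iio a).Nonempty → P a n =
      (Finset.range (kk (fun i m => (P (e a i) m).card) n)).biUnion
        (fun i => insert (e a i) (P (e a i) n)) := by
    intro a n h
    have h1 : P a = F a (fun b _ => P b) := WellFounded.fix_eq _ _ _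
    rw [h1]
    simp only [F, dif_pos h]
  have hP0 : ∀ a n, ¬ (Iio a).Nonempty → P a n = ∅ := by
    intro a n h
    have h1 : P a = F a (fun b _ => P b) := WellFounded.fix_eq _ _ _
    rw [h1]
    simp only [F, dif_neg h]
  -- first property
  have p1 : ∀ a n, ∀ b ∈ P a n, b < a := by
    intro a
    induction a using WellFoundedLT.induction with
    | _ a ih =>
      intro n b hb
      by_cases h : (Iio a).Nonempty
      · rw [hP a n h, Finset.mem_biUnion] at hb
        obtain ⟨i, -, hb⟩ := hb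
        rw [Finset.mem_insert] at hb
        rcases hb with rfl | hb
        · exact he1 a h i
        · exact (ih _ (he1 a h i) n b hb).trans (he1 a h i)
      · rw [hP0 a n h] at hb
        exact absurd hb (Finset.notMem_empty b)
  have p2 : ∀ a n m, n ≤ m → P a n ⊆ P a m := by
    intro a
    induction a using WellFoundedLT.induction with
    | _ a ih =>
      intro n m hnm b hb
      by_cases h : (Iio a).Nonempty
      · rw [hP a n h, Finset.mem_biUnion] at hb
        rw [hP a m h, Finset.mem_biUnion]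
        obtain ⟨i, hi, hb⟩ := hb
        refine ⟨i, ?_, ?_⟩
        · rw [Finset.mem_range] at hi ⊢
          exact hi.trans_le (kk_mono _ hnm)
        · rw [Finset.mem_insert] at hb ⊢
          rcases hb with rfl | hb
          · left; rfl
          · right; exact ih _ (he1 a h i) n m hnm hb
      · rw [hP0 a n h] at hb
        exact absurd hb (Finset.notMem_empty b)
  have p3 : ∀ a n, ∀ b ∈ P a n, P b n ⊆ P a n := by
    intro a
    induction a using WellFoundedLT.induction with
    | _ a ih =>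
      intro n b hb c hcb
      by_cases h : (Iio a).Nonempty
      · rw [hP a n h, Finset.mem_biUnion] at hb ⊢
        obtain ⟨i, hi, hb⟩ := hb
        refine ⟨i, hi, ?_⟩
        rw [Finset.mem_insert] at hb ⊢
        right
        rcases hb with rfl | hb
        · exact hcb
        · exact ih _ (he1 a h i) n b hb hcb
      · rw [hP0 a n h] at hb
        exact absurd hb (Finset.notMem_empty b)
  have p6 : ∀ a, (∀ n, (P a n).card ≤ n) ∧ ∀ k, ∃ N, ∀ n ≥ N, k * (P a n).card ≤ n := by
    intro a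
    induction a using WellFoundedLT.induction with
    | _ a ih =>
      by_cases h : (Iio a).Nonempty
      · set s : ℕ → ℕ → ℕ := fun i m => (P (e a i) m).card with hs
        have hcard : ∀ n, (P a n).card ≤ ∑ i ∈ Finset.range (kk s n), (1 + s i n) := by
          intro n
          rw [hP a n h]
          refine Finset.card_biUnion_le.trans (Finset.sum_le_sum fun i _ => ?_)
          refine (Finset.card_insert_le _ _).trans ?_
          simp only [hs]; omega
        have hs2 : ∀ i k, ∃ N, ∀ n ≥ N, k * s i n ≤ n := fun i k => (ih _ (he1 a h i)).2 k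
        constructor
        · intro n
          have h1 := kk_spec s n n le_rfl
          rcases Nat.eq_zero_or_pos (kk s n) with h0 | h0
          · have := hcard n
            rw [h0, Finset.range_zero, Finset.sum_empty] at this
            omega
          · calc (P a n).card ≤ ∑ i ∈ Finset.range (kk s n), (1 + s i n) := hcard n
              _ ≤ kk s n * ∑ i ∈ Finset.range (kk s n), (1 + s i n) :=
                Nat.le_mul_of_pos_left _ h0
              _ ≤ n := h1
        · intro k
          obtain ⟨N, hN⟩ := kk_tendsto hs2 k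
          refine ⟨N, fun n hn => ?_⟩
          calc k * (P a n).card ≤ kk s n * ∑ i ∈ Finset.range (kk s n), (1 + s i n) :=
                Nat.mul_le_mul (hN n hn) (hcard n)
            _ ≤ n := kk_spec s n n le_rfl
      · constructor
        · intro n; rw [hP0 a n h]; simp
        · intro k; exact ⟨0, fun n _ => by rw [hP0 a n h]; simp⟩
  refine ⟨P, p1, p2, p3, ?_, fun a n => (p6 a).1 n⟩
  intro a b hb
  have h : (Iio a).Nonempty := ⟨b, hb⟩
  obtain ⟨i, hi⟩ := he2 a h b hb
  have hs2 : ∀ i k, ∃ N, ∀ n ≥ N, k * (P (e a i) n).card ≤ n := fun i k => (p6 _).2 k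
  obtain ⟨N, hN⟩ := kk_tendsto (s := fun i m => (P (e a i) m).card) hs2 (i + 1)
  refine ⟨N, ?_⟩
  rw [hP a N h, Finset.mem_biUnion]
  refine ⟨i, ?_, ?_⟩
  · rw [Finset.mem_range]
    exact hN N le_rfl
  · rw [Finset.mem_insert]
    left; exact hi.symm

end

section

open Set Filter Topology

/-- A transitive system of finite sets of predecessors. -/
structure RhoSys (W : Type*) [LinearOrder W] where
  P : W → ℕ → Finset W
  lt : ∀ a n, ∀ b ∈ P a n, b < a
  mono : ∀ a n m, n ≤ m → P a n ⊆ P a m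
  trans : ∀ a n, ∀ b ∈ P a n, P b n ⊆ P a n
  cover : ∀ a b, b < a → ∃ n, b ∈ P a n
  card : ∀ a n, (P a n).card ≤ n

variable {W : Type*} [LinearOrder W]

/-- The compact set of subsets of `ℕ ⊕ W`. -/
def Kset (R : RhoSys W) : Set (ℕ ⊕ W → Bool) :=
  {s | (∀ m n : ℕ, m ≠ n → ¬ (s (Sum.inl m) = true ∧ s (Sum.inl n) = true)) ∧
    (∀ (n : ℕ) (F : Finset W), s (Sum.inl n) = true → (∀ b ∈ F, s (Sum.inr b) = true) →
      F.card ≤ n) ∧
    (∀ (a b : W) (N : ℕ), b ∈ R.P a N → s (Sum.inr a) = true →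
      s (Sum.inr b) = true ∨ ∃ n < N, s (Sum.inl n) = true)}

theorem isClopen_coord {Γ : Type*} (γ : Γ) (v : Bool) : IsClopen {s : Γ → Bool | s γ = v} := by
  have : {s : Γ → Bool | s γ = v} = (fun s : Γ → Bool => s γ) ⁻¹' {v} := rfl
  rw [this]
  exact (isClopen_discrete _).preimage (continuous_apply γ)

theorem isClosed_Kset (R : RhoSys W) : IsClosed (Kset R) := by
  have h1 : IsClosed {s : ℕ ⊕ W → Bool | ∀ m n : ℕ, m ≠ n →
      ¬ (s (Sum.inl m) = true ∧ s (Sum.inl n) = true)} := by
    simp only [ofPred_forall]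
    refine isClosed_iInter fun m => isClosed_iInter fun n => isClosed_iInter fun _ => ?_
    have : {s : ℕ ⊕ W → Bool | ¬ (s (Sum.inl m) = true ∧ s (Sum.inl n) = true)} =
        ({s | s (Sum.inl m) = true} ∩ {s | s (Sum.inl n) = true})ᶜ := by
      ext s; simp
    rw [this]
    exact ((isClopen_coord _ _).isOpen.inter (isClopen_coord _ _).isOpen).isClosed_compl
  have h2 : IsClosed {s : ℕ ⊕ W → Bool | ∀ (n : ℕ) (F : Finset W), s (Sum.inl n) = true →
      (∀ b ∈ F, s (Sum.inr b) = true) → F.card ≤ n} := by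
    simp only [ofPred_forall]
    refine isClosed_iInter fun n => isClosed_iInter fun F => ?_
    by_cases hF : F.card ≤ n
    · convert isClosed_univ using 1
      ext s; simp [hF]
    · have : (⋂ (_ : ℕ), ({s : ℕ ⊕ W → Bool | s (Sum.inl n) = true → (∀ b ∈ F, s (Sum.inr b) = true)
          → F.card ≤ n})) =
          ({s | s (Sum.inl n) = true} ∩ ⋂ b ∈ F, {s | s (Sum.inr b) = true})ᶜ := by
        ext s
        simp only [mem_iInter, mem_ofPred_eq, mem_compl_iff, mem_inter_iff, forall_const, hF]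
        tauto
      have h3 : IsClosed (({s : ℕ ⊕ W → Bool | s (Sum.inl n) = true} ∩
          ⋂ b ∈ F, {s | s (Sum.inr b) = true})ᶜ) := by
        apply IsOpen.isClosed_compl
        apply (isClopen_coord _ _).isOpen.inter
        exact isOpen_biInter_finset fun b _ => (isClopen_coord _ _).isOpen
      rw [← this] at h3
      convert h3 using 1
      ext s
      simp
  have h3 : IsClosed {s : ℕ ⊕ W → Bool | ∀ (a b : W) (N : ℕ), b ∈ R.P a N →
      s (Sum.inr a) = true → s (Sum.inr b) = true ∨ ∃ n < N, s (Sum.inl n) = true} := by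
    simp only [ofPred_forall]
    refine isClosed_iInter fun a => isClosed_iInter fun b => isClosed_iInter fun N =>
      isClosed_iInter fun _ => ?_
    have : (⋂ (_ : ℕ), {s : ℕ ⊕ W → Bool | s (Sum.inr a) = true →
        (s (Sum.inr b) = true ∨ ∃ n < N, s (Sum.inl n) = true)}) =
        {s | s (Sum.inr a) = false} ∪ ({s | s (Sum.inr b) = true} ∪
          ⋃ n ∈ Finset.range N, {s | s (Sum.inl n) = true}) := by
      ext s
      simp only [mem_iInter, mem_ofPred_eq, mem_union, mem_iUnion, Finset.mem_range, forall_const]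
      cases s (Sum.inr a) <;> simp
    have h4 : IsClosed ({s : ℕ ⊕ W → Bool | s (Sum.inr a) = false} ∪
        ({s | s (Sum.inr b) = true} ∪ ⋃ n ∈ Finset.range N, {s | s (Sum.inl n) = true})) := by
      apply (isClopen_coord _ _).isClosed.union
      apply (isClopen_coord _ _).isClosed.union
      exact isClosed_biUnion_finset fun n _ => (isClopen_coord _ _).isClosed
    rw [← this] at h4
    convert h4 using 1
    ext s
    simp
  have : Kset R = _ ∩ (_ ∩ _) := rfl
  rw [this]
  exact h1.inter (h2.inter h3)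

/-- The compact space. -/
abbrev KK (R : RhoSys W) : Type _ := ↥(Kset R)

instance (R : RhoSys W) : CompactSpace (KK R) :=
  isCompact_iff_compactSpace.mp (isClosed_Kset R).isCompact

variable {R : RhoSys W}

/-- `n ∈ s`. -/
def hasN (s : KK R) (n : ℕ) : Prop := s.1 (Sum.inl n) = true

/-- `b ∈ s`. -/
def hasW (s : KK R) (b : W) : Prop := s.1 (Sum.inr b) = true

theorem hasN_unique {s : KK R} {m n : ℕ} (hm : hasN s m) (hn : hasN s n) : m = n := by
  by_contra h
  exact s.2.1 m n h ⟨hm, hn⟩

theorem card_le {s : KK R} {n : ℕ} (hn : hasN s n) {F : Finset W} (hF : ∀ b ∈ F, hasW s b) :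
    F.card ≤ n := s.2.2.1 n F hn hF

theorem lower_of_noN {s : KK R} (h : ∀ n, ¬ hasN s n) {a b : W} (ha : hasW s a) (hb : b < a) :
    hasW s b := by
  obtain ⟨N, hN⟩ := R.cover a b hb
  rcases s.2.2.2 a b N hN ha with h1 | ⟨n, -, h1⟩
  · exact h1
  · exact absurd h1 (h n)

theorem ext_mem {s t : KK R} (h1 : ∀ n, hasN s n ↔ hasN t n) (h2 : ∀ b, hasW s b ↔ hasW t b) :
    s = t := by
  apply Subtype.ext
  funext γ
  rcases γ with n | b
  · have := h1 n
    unfold hasN at this
    exact Bool.eq_iff_iff.mpr this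
  · have := h2 b
    unfold hasW at this
    exact Bool.eq_iff_iff.mpr this

open Classical in
/-- The point given by a lower set, with no natural number. -/
noncomputable def infPt (R : RhoSys W) (B : Set W) (hB : ∀ a ∈ B, ∀ b < a, b ∈ B) : KK R :=
  ⟨fun γ => Sum.elim (fun _ => false) (fun b => decide (b ∈ B)) γ, by
    refine ⟨?_, ?_, ?_⟩
    · intro m n _; simp
    · intro n F h; simp at h
    · intro a b N hb ha
      left
      simp only [Sum.elim_inr, decide_eq_true_eq] at ha ⊢
      exact hB a ha b (R.lt a N b hb)⟩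

theorem infPt_hasN {B : Set W} {hB : ∀ a ∈ B, ∀ b < a, b ∈ B} (n : ℕ) :
    ¬ hasN (infPt R B hB) n := by
  simp [hasN, infPt]

theorem infPt_hasW {B : Set W} {hB : ∀ a ∈ B, ∀ b < a, b ∈ B} (b : W) :
    hasW (infPt R B hB) b ↔ b ∈ B := by
  simp [hasW, infPt]

open Classical in
/-- The point `(n, P a n)`. -/
noncomputable def finPt (R : RhoSys W) (a : W) (n : ℕ) : KK R :=
  ⟨fun γ => Sum.elim (fun m => decide (m = n)) (fun b => decide (b ∈ R.P a n)) γ, by
    refine ⟨?_, ?_, ?_⟩
    · intro m n _; simp only [Sum.elim_inl, decide_eq_true_eq]; omega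
    · intro m F hm hF
      simp only [Sum.elim_inl, Sum.elim_inr, decide_eq_true_eq] at hm hF
      subst hm
      exact (Finset.card_le_card hF).trans (R.card a m)
    · intro c b N hb hc
      simp only [Sum.elim_inl, Sum.elim_inr, decide_eq_true_eq] at hc ⊢
      rcases lt_or_ge n N with h | h
      · right; exact ⟨n, h, rfl⟩
      · left
        exact R.trans a n c hc (R.mono c N n h hb)⟩

theorem finPt_hasN {a : W} {n m : ℕ} : hasN (finPt R a n) m ↔ m = n := by
  simp [hasN, finPt]

theorem finPt_hasW {a : W} {n : ℕ} {b : W} : hasW (finPt R a n) b ↔ b ∈ R.P a n := by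
  simp [hasW, finPt]

open Classical in
/-- The retraction onto the coordinates below `δ`. -/
noncomputable def ret (δ : W) (s : KK R) : KK R :=
  ⟨fun γ => Sum.elim (fun n => s.1 (Sum.inl n)) (fun b => s.1 (Sum.inr b) && decide (b < δ)) γ, by
    refine ⟨?_, ?_, ?_⟩
    · intro m n h; exact s.2.1 m n h
    · intro n F hn hF
      apply s.2.2.1 n F hn
      intro b hb
      have := hF b hb
      simp only [Sum.elim_inr, Bool.and_eq_true, decide_eq_true_eq] at this
      exact this.1
    · intro a b N hb ha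
      simp only [Sum.elim_inr, Sum.elim_inl, Bool.and_eq_true, decide_eq_true_eq] at ha ⊢
      rcases s.2.2.2 a b N hb ha.1 with h | h
      · left; exact ⟨h, (R.lt a N b hb).trans ha.2⟩
      · right; exact h⟩

theorem ret_hasN {δ : W} {s : KK R} {n : ℕ} : hasN (ret δ s) n ↔ hasN s n := by
  simp [hasN, ret]

theorem ret_hasW {δ : W} {s : KK R} {b : W} : hasW (ret δ s) b ↔ hasW s b ∧ b < δ := by
  simp [hasW, ret]

/-- `s` lies in the part of the space with coordinates below `δ`. -/
def below (δ : W) (s : KK R) : Prop := ∀ b, hasW s b → b < δ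

theorem ret_below (δ : W) (s : KK R) : below δ (ret δ s) := fun _ hb => (ret_hasW.mp hb).2

theorem ret_eq_self {δ : W} {s : KK R} (h : below δ s) : ret δ s = s := by
  apply ext_mem
  · intro n; exact ret_hasN
  · intro b; rw [ret_hasW]
    exact ⟨fun h => h.1, fun hb => ⟨hb, h b hb⟩⟩

theorem ret_ret {δ δ' : W} (h : δ ≤ δ') (s : KK R) : ret δ (ret δ' s) = ret δ s := by
  apply ext_mem
  · intro n; rw [ret_hasN, ret_hasN, ret_hasN]
  · intro b; rw [ret_hasW, ret_hasW, ret_hasW]
    exact ⟨fun h => ⟨h.1.1, h.2⟩, fun hb => ⟨⟨hb.1, hb.2.trans_le h⟩, hb.2⟩⟩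

theorem ret_continuous (δ : W) : Continuous (ret (R := R) δ) := by
  classical
  apply Continuous.subtype_mk
  apply continuous_pi
  rintro (n | b)
  · exact (continuous_apply (Sum.inl n)).comp continuous_subtype_val
  · have h1 : Continuous fun s : KK R => s.1 (Sum.inr b) :=
      (continuous_apply (Sum.inr b)).comp continuous_subtype_val
    have h2 : Continuous fun v : Bool => v && decide (b < δ) := continuous_of_discreteTopology
    exact h2.comp h1

/-- Basic neighbourhoods. -/
theorem exists_cylinder {U : Set (KK R)} {s : KK R} (hU : U ∈ 𝓝 s) :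
    ∃ F : Finset (ℕ ⊕ W), ∀ t : KK R, (∀ γ ∈ F, t.1 γ = s.1 γ) → t ∈ U := by
  rw [nhds_subtype_eq_comap, mem_comap] at hU
  obtain ⟨V, hV, hVU⟩ := hU
  obtain ⟨V', hV', hVo, hsV⟩ := mem_nhds_iff.mp hV
  obtain ⟨I, u, hu, hsub⟩ := isOpen_pi_iff.mp hVo s.1 hsV
  refine ⟨I, fun t ht => hVU (hV' (hsub ?_))⟩
  intro γ hγ
  rw [ht γ hγ]
  exact (hu γ hγ).2

theorem cylinder_isOpen (F : Finset (ℕ ⊕ W)) (s : KK R) :
    IsOpen {t : KK R | ∀ γ ∈ F, t.1 γ = s.1 γ} := by
  have : {t : KK R | ∀ γ ∈ F, t.1 γ = s.1 γ} =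
      Subtype.val ⁻¹' (⋂ γ ∈ F, {t : ℕ ⊕ W → Bool | t γ = s.1 γ}) := by
    ext t; simp
  rw [this]
  exact (isOpen_biInter_finset fun γ _ => (isClopen_coord _ _).isOpen).preimage
    continuous_subtype_val

/-- A continuous function depends, up to `ε`, on finitely many coordinates. -/
theorem finite_dependence (f : C(KK R, ℝ)) {ε : ℝ} (hε : 0 < ε) :
    ∃ F : Finset (ℕ ⊕ W), ∀ s t : KK R, (∀ γ ∈ F, s.1 γ = t.1 γ) → |f s - f t| < ε := by
  classical
  have h1 : ∀ s : KK R, ∃ F : Finset (ℕ ⊕ W), ∀ t : KK R, (∀ γ ∈ F, t.1 γ = s.1 γ) →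
      |f t - f s| < ε / 2 := by
    intro s
    apply exists_cylinder
    have := Metric.tendsto_nhds.mp (f.continuous.tendsto s) (ε / 2) (by positivity)
    filter_upwards [this] with t ht
    rwa [Real.dist_eq] at ht
  choose F hF using h1
  obtain ⟨T, -, hT⟩ := isCompact_univ.elim_nhds_subcover
    (fun s : KK R => {t : KK R | ∀ γ ∈ F s, t.1 γ = s.1 γ})
    (fun s _ => (cylinder_isOpen (F s) s).mem_nhds (fun γ _ => rfl))
  refine ⟨T.biUnion F, fun s t hst => ?_⟩
  have hs := hT (mem_univ s)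
  simp only [mem_iUnion] at hs
  obtain ⟨u, hu, hsu⟩ := hs
  have h2 := hF u s hsu
  have h3 := hF u t (fun γ hγ => by
    rw [← hst γ (Finset.mem_biUnion.mpr ⟨u, hu, hγ⟩)]
    exact hsu γ hγ)
  have : f s - f t = (f s - f u) - (f t - f u) := by ring
  rw [this]
  calc |(f s - f u) - (f t - f u)| ≤ |f s - f u| + |f t - f u| := abs_sub _ _
    _ < ε := by linarith

end

section

open Set Filter Topology

variable {W : Type*} [LinearOrder W] [WellFoundedLT W]

omit [WellFoundedLT W] in
theorem Iic_countable (hc : ∀ a : W, (Iio a).Countable) (a : W) : (Iic a).Countable := by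
  have : Iic a = insert a (Iio a) := by
    ext x; simp [le_iff_eq_or_lt]
  rw [this]
  exact (hc a).insert a

omit [WellFoundedLT W] in
/-- Countable sets are bounded. -/
theorem exists_gt_of_countable (hc : ∀ a : W, (Iio a).Countable) (hu : ¬ (univ : Set W).Countable)
    {S : Set W} (hS : S.Countable) : ∃ b, ∀ a ∈ S, a < b := by
  by_contra hcon
  push Not at hcon
  apply hu
  have : (univ : Set W) ⊆ ⋃ a ∈ S, Iic a := by
    intro b _
    obtain ⟨a, ha, hab⟩ := hcon b
    exact mem_biUnion ha hab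
  exact (hS.biUnion fun a _ => Iic_countable hc a).mono this

/-- The supremum of a strictly increasing sequence. -/
theorem exists_sup (hc : ∀ a : W, (Iio a).Countable) (hu : ¬ (univ : Set W).Countable)
    {a : ℕ → W} (ha : StrictMono a) : ∃ l, (∀ i, a i < l) ∧ ∀ b < l, ∃ i, b < a i := by
  obtain ⟨b, hb⟩ := exists_gt_of_countable hc hu (countable_range a)
  have hne : {l : W | ∀ i, a i < l}.Nonempty := ⟨b, fun i => hb _ (mem_range_self i)⟩
  let l := wellFounded_lt.min {l : W | ∀ i, a i < l} hne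
  refine ⟨l, wellFounded_lt.min_mem _ hne, fun b hb => ?_⟩
  have h1 : ¬ ∀ i, a i < b := fun h => wellFounded_lt.not_lt_min {l : W | ∀ i, a i < l} h hb
  push Not at h1
  obtain ⟨i, hi⟩ := h1
  exact ⟨i + 1, hi.trans_lt (ha (Nat.lt_succ_self i))⟩

/-- An initial segment is everything or of the form `Iio`. -/
theorem lower_set_cases {B : Set W} (hB : ∀ a ∈ B, ∀ b < a, b ∈ B) :
    B = univ ∨ ∃ c, B = Iio c := by
  rcases eq_or_ne B univ with h | h
  · left; exact h
  · right
    have hne : Bᶜ.Nonempty := nonempty_compl.mpr h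
    refine ⟨wellFounded_lt.min Bᶜ hne, ?_⟩
    ext x
    constructor
    · intro hx
      rw [mem_Iio]
      by_contra hcon
      push Not at hcon
      have h1 : wellFounded_lt.min Bᶜ hne ∈ Bᶜ := wellFounded_lt.min_mem _ hne
      rcases hcon.lt_or_eq with h2 | h2
      · exact h1 (hB x hx _ h2)
      · rw [h2] at h1; exact h1 hx
    · intro hx
      by_contra hcon
      exact wellFounded_lt.not_lt_min Bᶜ hcon hx

variable {R : RhoSys W}

/-- The set of points below `δ` is countable. -/
theorem below_countable (hc : ∀ a : W, (Iio a).Countable) (δ : W) :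
    {s : KK R | below δ s}.Countable := by
  let Φ : KK R → Set ℕ × Set W := fun s => ({n | hasN s n}, {b | hasW s b})
  have hΦ : Function.Injective Φ := by
    intro s t h
    have h1 := congrArg Prod.fst h
    have h2 := congrArg Prod.snd h
    apply ext_mem
    · intro n
      have := congrArg (fun A : Set ℕ => n ∈ A) h1
      simpa [Φ] using this
    · intro b
      have := congrArg (fun A : Set W => b ∈ A) h2
      simpa [Φ] using this
  have hcount : ({t : Set ℕ | t.Finite ∧ t ⊆ univ} ×ˢ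
      ({t : Set W | t.Finite ∧ t ⊆ Iio δ} ∪ Iio '' Iic δ)).Countable := by
    apply Countable.prod (countable_ofPred_finite_subset countable_univ)
    exact (countable_ofPred_finite_subset (hc δ)).union ((Iic_countable hc δ).image _)
  apply (hcount.preimage hΦ).mono
  intro s hs
  have hs' : below δ s := hs
  refine ⟨⟨?_, subset_univ _⟩, ?_⟩
  · exact Set.Subsingleton.finite fun m hm n hn => hasN_unique hm hn
  · by_cases h : ∃ n, hasN s n
    · obtain ⟨n, hn⟩ := h
      left
      refine ⟨?_, hs'⟩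
      by_contra hinf
      obtain ⟨F, hF, hFc⟩ := Set.Infinite.exists_subset_card_eq hinf (n + 1)
      have := card_le hn (F := F) (fun b hb => hF hb)
      omega
    · right
      push Not at h
      have hl : ∀ a ∈ {b | hasW s b}, ∀ b < a, b ∈ {b | hasW s b} := fun a ha b hb =>
        lower_of_noN h ha hb
      rcases lower_set_cases hl with h1 | ⟨c, h1⟩
      · exfalso
        have h2 : hasW s δ := by
          have : δ ∈ {b | hasW s b} := by rw [h1]; trivial
          exact this
        exact lt_irrefl _ (hs' δ h2)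
      · refine ⟨c, ?_, h1.symm⟩
        rw [mem_Iic]
        by_contra hcon
        push Not at hcon
        have h2 : δ ∈ {b | hasW s b} := by rw [h1]; exact hcon
        exact lt_irrefl _ (hs' δ h2)

/-- The top point. -/
noncomputable def xtop (R : RhoSys W) : KK R := infPt R univ (fun _ _ _ _ => trivial)

theorem exists_below_of_ne (hc : ∀ a : W, (Iio a).Countable) (hu : ¬ (univ : Set W).Countable)
    {s : KK R} (hs : s ≠ xtop R) : ∃ δ, below δ s := by
  have hcount : {b | hasW s b}.Countable := by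
    by_cases h : ∃ n, hasN s n
    · obtain ⟨n, hn⟩ := h
      apply Set.Finite.countable
      by_contra hinf
      obtain ⟨F, hF, hFc⟩ := Set.Infinite.exists_subset_card_eq hinf (n + 1)
      have := card_le hn (F := F) (fun b hb => hF hb)
      omega
    · push Not at h
      have hl : ∀ a ∈ {b | hasW s b}, ∀ b < a, b ∈ {b | hasW s b} := fun a ha b hb =>
        lower_of_noN h ha hb
      rcases lower_set_cases hl with h1 | ⟨c, h1⟩
      · exfalso
        apply hs
        apply ext_mem
        · intro n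
          exact ⟨fun h2 => absurd h2 (h n), fun h2 => absurd h2 (infPt_hasN n)⟩
        · intro b
          refine ⟨fun _ => (infPt_hasW b).mpr trivial, fun _ => ?_⟩
          have : b ∈ {b | hasW s b} := by rw [h1]; trivial
          exact this
      · rw [h1]; exact hc c
  obtain ⟨δ, hδ⟩ := exists_gt_of_countable hc hu hcount
  exact ⟨δ, fun b hb => hδ b hb⟩

/-- The space is scattered. -/
theorem scattered (R : RhoSys W) (S : Set (KK R)) (hS : S.Nonempty) :
    ∃ x ∈ S, ∃ U : Set (KK R), IsOpen U ∧ U ∩ S = {x} := by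
  classical
  by_cases h : ∃ s ∈ S, ∃ n, hasN s n
  · obtain ⟨s₀, hs₀, n, hn⟩ := h
    -- maximal size among members of `S` containing `n`
    let p : ℕ → Prop := fun k => ∃ s ∈ S, hasN s n ∧ ∃ F : Finset W, (∀ b ∈ F, hasW s b) ∧
      F.card = k
    have hp0 : p 0 := ⟨s₀, hs₀, hn, ∅, by simp, rfl⟩
    have hpb : ∀ k, p k → k ≤ n := by
      rintro k ⟨s, -, hsn, F, hF, rfl⟩
      exact card_le hsn hF
    have hm := Nat.findGreatest_spec (P := p) (Nat.zero_le n) hp0
    set k := Nat.findGreatest p n with hk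
    obtain ⟨s, hsS, hsn, F, hF, hFk⟩ := hm
    refine ⟨s, hsS, {t | hasN t n ∧ ∀ b ∈ F, hasW t b}, ?_, ?_⟩
    · have : {t : KK R | hasN t n ∧ ∀ b ∈ F, hasW t b} =
          Subtype.val ⁻¹' ({s : ℕ ⊕ W → Bool | s (Sum.inl n) = true} ∩
            ⋂ b ∈ F, {s : ℕ ⊕ W → Bool | s (Sum.inr b) = true}) := by
        ext t; simp [hasN, hasW]
      rw [this]
      exact ((isClopen_coord _ _).isOpen.inter
        (isOpen_biInter_finset fun b _ => (isClopen_coord _ _).isOpen)).preimage
        continuous_subtype_val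
    · have hall : ∀ t ∈ S, hasN t n → (∀ b ∈ F, hasW t b) → ∀ b, hasW t b ↔ b ∈ F := by
        intro t htS htn htF b
        refine ⟨fun hb => ?_, fun hb => htF b hb⟩
        by_contra hbF
        have h1 : p (k + 1) := ⟨t, htS, htn, insert b F, by
          intro c hc
          rw [Finset.mem_insert] at hc
          rcases hc with rfl | hc
          · exact hb
          · exact htF c hc, by rw [Finset.card_insert_of_notMem hbF, hFk]⟩
        have h2 := Nat.le_findGreatest (hpb _ h1) h1
        omega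
      ext t
      constructor
      · rintro ⟨⟨htn, htF⟩, htS⟩
        apply ext_mem
        · intro m
          constructor
          · intro hm
            rw [hasN_unique hm htn]; exact hsn
          · intro hm
            rw [hasN_unique hm hsn]; exact htn
        · intro b
          rw [hall t htS htn htF b, hall s hsS hsn hF b]
      · rintro rfl
        exact ⟨⟨hsn, hF⟩, hsS⟩
  · push Not at h
    -- all members are initial segments
    by_cases h2 : ∃ s ∈ S, ∃ b, ¬ hasW s b
    · have hne : {b : W | ∃ s ∈ S, ¬ hasW s b}.Nonempty := by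
        obtain ⟨s, hs, b, hb⟩ := h2
        exact ⟨b, s, hs, hb⟩
      set c := wellFounded_lt.min {b : W | ∃ s ∈ S, ¬ hasW s b} hne with hc
      have hcm : ∃ s ∈ S, ¬ hasW s c := wellFounded_lt.min_mem {b : W | ∃ s ∈ S, ¬ hasW s b} hne
      have hlow : ∀ t ∈ S, ∀ b < c, hasW t b := by
        intro t ht b hb
        by_contra hcon
        exact wellFounded_lt.not_lt_min {b : W | ∃ s ∈ S, ¬ hasW s b} ⟨t, ht, hcon⟩ hb
      obtain ⟨s, hs, hsc⟩ := hcm
      refine ⟨s, hs, {t | ¬ hasW t c}, ?_, ?_⟩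
      · have : {t : KK R | ¬ hasW t c} = Subtype.val ⁻¹' {s : ℕ ⊕ W → Bool |
            s (Sum.inr c) = false} := by
          ext t; simp [hasW]
        rw [this]
        exact (isClopen_coord _ _).isOpen.preimage continuous_subtype_val
      · have hall : ∀ t ∈ S, ¬ hasW t c → ∀ b, hasW t b ↔ b < c := by
          intro t ht htc b
          refine ⟨fun hb => ?_, fun hb => hlow t ht b hb⟩
          by_contra hcon
          push Not at hcon
          rcases hcon.lt_or_eq with h3 | h3
          · exact htc (lower_of_noN (h t ht) hb h3)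
          · rw [h3] at htc; exact htc hb
        ext t
        constructor
        · rintro ⟨htc, htS⟩
          apply ext_mem
          · intro n
            exact ⟨fun h3 => absurd h3 (h t htS n), fun h3 => absurd h3 (h s hs n)⟩
          · intro b
            rw [hall t htS htc b, hall s hs hsc b]
        · rintro rfl
          exact ⟨hsc, hs⟩
    · push Not at h2
      obtain ⟨s, hs⟩ := hS
      refine ⟨s, hs, univ, isOpen_univ, ?_⟩
      rw [univ_inter]
      ext t
      constructor
      · intro ht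
        apply ext_mem
        · intro n
          exact ⟨fun h3 => absurd h3 (h t ht n), fun h3 => absurd h3 (h s hs n)⟩
        · intro b
          exact ⟨fun _ => h2 s hs b, fun _ => h2 t ht b⟩
      · rintro rfl; exact hs

end

section

open Set Filter Topology

variable {W : Type*} [LinearOrder W] [WellFoundedLT W] {R : RhoSys W}

/-- `0` if the absolute value is below every `2/(k+1)`. -/
theorem eq_of_forall_le {x y K : ℝ} (h : ∀ k : ℕ, |x - y| ≤ K / (k + 1)) : x = y := by
  have h1 : Tendsto (fun k : ℕ => K / ((k : ℝ) + 1)) atTop (𝓝 0) := by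
    have := tendsto_one_div_add_atTop_nhds_zero_nat (𝕜 := ℝ)
    have h2 := this.const_mul K
    rw [mul_zero] at h2
    refine h2.congr fun k => ?_
    ring
  have h2 : |x - y| ≤ 0 := ge_of_tendsto' h1 h
  have h3 : |x - y| = 0 := le_antisymm h2 (abs_nonneg _)
  exact sub_eq_zero.mp (abs_eq_zero.mp h3)

omit [WellFoundedLT W] in
theorem strictMono_iterate {g : W → W} (hg : ∀ a, a < g a) (a : W) :
    StrictMono fun n : ℕ => g^[n] a := by
  apply strictMono_nat_of_lt_succ
  intro n
  rw [Function.iterate_succ_apply']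
  exact hg _

/-- Bounded variation along pairs. -/
def PairVar (f : W → C(KK R, ℝ)) (C : ℝ) : Prop :=
  ∀ a : ℕ → W, StrictMono a → ∀ (N : ℕ) (s : KK R),
    ∑ i ∈ Finset.range N, |f (a (2 * i + 1)) s - f (a (2 * i)) s| ≤ C

omit [WellFoundedLT W] in
theorem eventually_const (hc : ∀ a : W, (Iio a).Countable) (hu : ¬ (univ : Set W).Countable)
    {f : W → C(KK R, ℝ)} {C : ℝ} (H1 : PairVar f C) (s : KK R) :
    ∃ α, ∀ β ≥ α, f β s = f α s := by
  have h1 : ∀ ε : ℝ, 0 < ε → ∃ α, ∀ β ≥ α, |f β s - f α s| ≤ ε := by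
    intro ε hε
    by_contra hcon
    push Not at hcon
    choose g hg1 hg2 using hcon
    have hg : ∀ a, a < g a := by
      intro a
      refine lt_of_le_of_ne (hg1 a) fun h => ?_
      have := hg2 a
      rw [← h, sub_self, abs_zero] at this
      linarith
    obtain ⟨a₀, -⟩ := exists_gt_of_countable hc hu (countable_empty (α := W))
    obtain ⟨N, hN⟩ := exists_nat_gt (C / ε)
    have h2 := H1 _ (strictMono_iterate hg a₀) N s
    have h3 : ∑ _i ∈ Finset.range N, ε ≤
        ∑ i ∈ Finset.range N, |f (g^[2 * i + 1] a₀) s - f (g^[2 * i] a₀) s| := by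
      apply Finset.sum_le_sum
      intro i _
      rw [Function.iterate_succ_apply']
      exact (hg2 _).le
    rw [Finset.sum_const, Finset.card_range, nsmul_eq_mul] at h3
    rw [div_lt_iff₀ hε] at hN
    linarith
  have h2 : ∀ k : ℕ, ∃ α, ∀ β ≥ α, |f β s - f α s| ≤ 1 / ((k : ℝ) + 1) := fun k =>
    h1 _ (by positivity)
  choose A hA using h2
  obtain ⟨α, hα⟩ := exists_gt_of_countable hc hu (countable_range A)
  refine ⟨α, fun β hβ => ?_⟩
  apply eq_of_forall_le (K := 2)
  intro k
  have h3 := hA k β ((hα _ (mem_range_self k)).le.trans hβ)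
  have h4 := hA k α (hα _ (mem_range_self k)).le
  have : f β s - f α s = (f β s - f (A k) s) - (f α s - f (A k) s) := by ring
  rw [this]
  calc _ ≤ |f β s - f (A k) s| + |f α s - f (A k) s| := abs_sub _ _
    _ ≤ 1 / ((k : ℝ) + 1) + 1 / ((k : ℝ) + 1) := add_le_add h3 h4
    _ = 2 / ((k : ℝ) + 1) := by ring

omit [WellFoundedLT W] in
theorem eventually_dep (hc : ∀ a : W, (Iio a).Countable) (hu : ¬ (univ : Set W).Countable)
    (F : C(KK R, ℝ)) : ∃ δ, ∀ δ' ≥ δ, ∀ s, F (ret δ' s) = F s := by
  have h1 : ∀ k : ℕ, ∃ S : Finset (ℕ ⊕ W), ∀ s t : KK R, (∀ γ ∈ S, s.1 γ = t.1 γ) →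
      |F s - F t| < 1 / ((k : ℝ) + 1) := fun k => finite_dependence F (by positivity)
  choose S hS using h1
  have hcount : {b : W | ∃ k, Sum.inr b ∈ S k}.Countable := by
    have : {b : W | ∃ k, Sum.inr b ∈ S k} = ⋃ k, Sum.inr ⁻¹' (S k : Set (ℕ ⊕ W)) := by
      ext b; simp
    rw [this]
    exact countable_iUnion fun k => ((S k).countable_toSet).preimage Sum.inr_injective
  obtain ⟨δ, hδ⟩ := exists_gt_of_countable hc hu hcount
  refine ⟨δ, fun δ' hδ' s => ?_⟩
  apply eq_of_forall_le (K := 1)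
  intro k
  refine (hS k (ret δ' s) s ?_).le
  rintro (n | b) hγ
  · have := ret_hasN (δ := δ') (s := s) (n := n)
    exact Bool.eq_iff_iff.mpr this
  · have h2 : b < δ' := (hδ b ⟨k, hγ⟩).trans_le hδ'
    have := ret_hasW (δ := δ') (s := s) (b := b)
    apply Bool.eq_iff_iff.mpr
    exact this.trans (and_iff_left h2)

/-- Indices at which the family is stable. -/
def Good (f : W → C(KK R, ℝ)) (δ : W) : Prop :=
  (∀ α < δ, ∀ s, f α (ret δ s) = f α s) ∧ (∀ s, below δ s → ∀ α ≥ δ, f α s = f δ s)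

omit [WellFoundedLT W] in
theorem tendsto_ret {δ : ℕ → W} (hδ : StrictMono δ) {l : W} (hl : ∀ b < l, ∃ i, b < δ i)
    {s : KK R} (hs : below l s) : Tendsto (fun i => ret (δ i) s) atTop (𝓝 s) := by
  rw [tendsto_subtype_rng, tendsto_pi_nhds]
  rintro (n | b)
  · apply tendsto_const_nhds.congr
    intro i
    exact (Bool.eq_iff_iff.mpr (ret_hasN (δ := δ i) (s := s) (n := n))).symm
  · by_cases hb : hasW s b
    · obtain ⟨i₀, hi₀⟩ := hl b (hs b hb)
      apply tendsto_const_nhds.congr'
      filter_upwards [eventually_ge_atTop i₀] with i hi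
      refine (Bool.eq_iff_iff.mpr ?_).symm
      have h1 := ret_hasW (δ := δ i) (s := s) (b := b)
      exact h1.trans (and_iff_left (hi₀.trans_le (hδ.monotone hi)))
    · apply tendsto_const_nhds.congr
      intro i
      refine (Bool.eq_iff_iff.mpr ?_).symm
      have h1 := ret_hasW (δ := δ i) (s := s) (b := b)
      exact h1.trans ⟨fun h => h.1, fun h => absurd h hb⟩

omit [WellFoundedLT W] in
theorem good_sup {f : W → C(KK R, ℝ)} {δ : ℕ → W} (hδ : StrictMono δ)
    (hg : ∀ i, Good f (δ i)) {l : W} (hl1 : ∀ i, δ i < l) (hl2 : ∀ b < l, ∃ i, b < δ i) :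
    Good f l := by
  constructor
  · intro α hα s
    obtain ⟨i, hi⟩ := hl2 α hα
    have h1 := (hg i).1 α hi (ret l s)
    rw [ret_ret (hl1 i).le, (hg i).1 α hi s] at h1
    exact h1.symm
  · intro s hs α hα
    have h1 := ((f α).continuous.tendsto s).comp (tendsto_ret hδ hl2 hs)
    have h2 := ((f l).continuous.tendsto s).comp (tendsto_ret hδ hl2 hs)
    refine tendsto_nhds_unique h1 (h2.congr fun i => ?_)
    have h3 := (hg i).2 (ret (δ i) s) (ret_below _ _)
    simp only [Function.comp_apply]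
    rw [h3 α ((hl1 i).le.trans hα), h3 l (hl1 i).le]

theorem exists_good (hc : ∀ a : W, (Iio a).Countable) (hu : ¬ (univ : Set W).Countable)
    {f : W → C(KK R, ℝ)} {C : ℝ} (H1 : PairVar f C) (γ : W) : ∃ δ > γ, Good f δ := by
  have hA := eventually_const hc hu H1
  choose A hA using hA
  have hD := fun α => eventually_dep hc hu (f α)
  choose Dp hDp using hD
  have hnx : ∀ γ : W, ∃ γ', γ < γ' ∧ (∀ s : KK R, below γ s → A s < γ') ∧
      ∀ α < γ, Dp α < γ' := by
    intro γ
    have hcount : ({γ} ∪ (A '' {s : KK R | below γ s} ∪ Dp '' Iio γ)).Countable :=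
      (countable_singleton γ).union (((below_countable hc γ).image A).union ((hc γ).image Dp))
    obtain ⟨b, hb⟩ := exists_gt_of_countable hc hu hcount
    exact ⟨b, hb γ (Or.inl rfl), fun s hs => hb _ (Or.inr (Or.inl (mem_image_of_mem A hs))),
      fun α hα => hb _ (Or.inr (Or.inr (mem_image_of_mem Dp hα)))⟩
  choose nx hnx1 hnx2 hnx3 using hnx
  have hmono := strictMono_iterate hnx1 γ
  obtain ⟨l, hl1, hl2⟩ := exists_sup hc hu hmono
  refine ⟨l, hl1 0, ?_, ?_⟩
  · intro α hα s
    obtain ⟨i, hi⟩ := hl2 α hα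
    have h1 := hnx3 _ α hi
    rw [← Function.iterate_succ_apply' nx i γ] at h1
    exact hDp α l (h1.trans (hl1 (i + 1))).le s
  · intro s hs α hα
    have h1 := ((f α).continuous.tendsto s).comp (tendsto_ret hmono hl2 hs)
    have h2 := ((f l).continuous.tendsto s).comp (tendsto_ret hmono hl2 hs)
    refine tendsto_nhds_unique h1 (h2.congr fun i => ?_)
    have h3 := hnx2 _ (ret (nx^[i] γ) s) (ret_below _ _)
    rw [← Function.iterate_succ_apply' nx i γ] at h3
    have h4 : A (ret (nx^[i] γ) s) < l := h3.trans (hl1 (i + 1))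
    simp only [Function.comp_apply]
    rw [hA _ α (h4.le.trans hα), hA _ l h4.le]

theorem exists_dstar (hc : ∀ a : W, (Iio a).Countable) (hu : ¬ (univ : Set W).Countable)
    {f : W → C(KK R, ℝ)} {C : ℝ} (H1 : PairVar f C) :
    ∃ δs, Good f δs ∧ ∀ δ ≥ δs, Good f δ → ∀ s, below δ s → f δ s = f δs (ret δs s) := by
  have hE : ∀ ε : ℝ, 0 < ε → ∃ γ, Good f γ ∧ ∀ δ ≥ γ, Good f δ → ∀ s, below δ s →
      |f δ s - f γ (ret γ s)| ≤ ε := by
    intro ε hε
    by_contra hcon
    push Not at hcon
    choose! d hd1 hd2 s hs1 hs2 using hcon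
    have hd : ∀ γ, Good f γ → γ < d γ := by
      intro γ hγ
      refine lt_of_le_of_ne (hd1 γ hγ) fun h => ?_
      have h1 := hs2 γ hγ
      have h2 := hs1 γ hγ
      rw [← h] at h1 h2
      rw [ret_eq_self h2, sub_self, abs_zero] at h1
      linarith
    obtain ⟨w₀, -⟩ := exists_gt_of_countable hc hu (countable_empty (α := W))
    obtain ⟨γ₀, -, hγ₀⟩ := exists_good hc hu H1 w₀
    have hgood : ∀ n, Good f (d^[n] γ₀) := by
      intro n
      induction n with
      | zero => exact hγ₀
      | succ n ih => rw [Function.iterate_succ_apply']; exact hd2 _ ih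
    have hmono : StrictMono fun n : ℕ => d^[n] γ₀ := by
      apply strictMono_nat_of_lt_succ
      intro n
      rw [Function.iterate_succ_apply']
      exact hd _ (hgood n)
    obtain ⟨l, hl1, hl2⟩ := exists_sup hc hu hmono
    obtain ⟨F, hF⟩ := finite_dependence (f l) hε
    have hi : ∃ i : ℕ, ∀ b : W, Sum.inr b ∈ F → b < l → b < d^[i] γ₀ := by
      have h1 : ∀ γ ∈ F, ∃ i : ℕ, ∀ b : W, γ = Sum.inr b → b < l → b < d^[i] γ₀ := by
        rintro (n | b) _
        · exact ⟨0, fun b hb => by simp at hb⟩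
        · by_cases hb : b < l
          · obtain ⟨i, hi⟩ := hl2 b hb
            exact ⟨i, fun b' hb' _ => by rw [← Sum.inr_injective hb']; exact hi⟩
          · exact ⟨0, fun b' hb' h' => absurd h' (by rw [← Sum.inr_injective hb']; exact hb)⟩
      choose! I hI using h1
      refine ⟨F.sup I, fun b hb hbl => ?_⟩
      have h2 := hI _ hb b rfl hbl
      exact h2.trans_le (hmono.monotone (Finset.le_sup hb))
    obtain ⟨i, hi⟩ := hi
    set γ := d^[i] γ₀ with hγ
    have hdγ : d γ = d^[i + 1] γ₀ := by rw [Function.iterate_succ_apply']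
    obtain ⟨t, ht1, ht2⟩ : ∃ t : KK R, below (d γ) t ∧ ε < |f (d γ) t - f γ (ret γ t)| :=
      ⟨s γ (hgood i), hs1 γ (hgood i), hs2 γ (hgood i)⟩
    have hagree : ∀ c ∈ F, t.1 c = (ret γ t).1 c := by
      rintro (n | b) hc'
      · exact (Bool.eq_iff_iff.mpr (ret_hasN (δ := γ) (s := t) (n := n))).symm
      · refine (Bool.eq_iff_iff.mpr ?_).symm
        refine (ret_hasW (δ := γ) (s := t) (b := b)).trans ⟨fun h => h.1, fun h => ⟨h, ?_⟩⟩
        apply hi b hc'
        have := ht1 b h
        rw [hdγ] at this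
        exact this.trans (hl1 (i + 1))
    have h1 := hF _ _ hagree
    have h2 : f l t = f (d γ) t :=
      (hd2 γ (hgood i)).2 _ ht1 l (by rw [hdγ]; exact (hl1 (i + 1)).le)
    have h3 : f l (ret γ t) = f γ (ret γ t) :=
      (hgood i).2 _ (ret_below _ _) l (hl1 i).le
    rw [h2, h3] at h1
    exact lt_asymm h1 ht2
  have h2 : ∀ k : ℕ, ∃ γ, Good f γ ∧ ∀ δ ≥ γ, Good f δ → ∀ s, below δ s →
      |f δ s - f γ (ret γ s)| ≤ 1 / ((k : ℝ) + 1) := fun k => hE _ (by positivity)
  choose γ hγ1 hγ2 using h2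
  obtain ⟨b, hb⟩ := exists_gt_of_countable hc hu (countable_range γ)
  obtain ⟨δs, hδs1, hδs2⟩ := exists_good hc hu H1 b
  refine ⟨δs, hδs2, fun δ hδ hδg s hs => ?_⟩
  apply eq_of_forall_le (K := 2)
  intro k
  have hk : γ k ≤ δs := ((hb _ (mem_range_self k)).trans hδs1).le
  have h3 := hγ2 k δ (hk.trans hδ) hδg s hs
  have h4 := hγ2 k δs hk hδs2 (ret δs s) (ret_below _ _)
  rw [ret_ret hk] at h4
  have : f δ s - f δs (ret δs s) = (f δ s - f (γ k) (ret (γ k) s)) -
      (f δs (ret δs s) - f (γ k) (ret (γ k) s)) := by ring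
  rw [this]
  calc _ ≤ |f δ s - f (γ k) (ret (γ k) s)| + |f δs (ret δs s) - f (γ k) (ret (γ k) s)| :=
        abs_sub _ _
    _ ≤ 1 / ((k : ℝ) + 1) + 1 / ((k : ℝ) + 1) := add_le_add h3 h4
    _ = 2 / ((k : ℝ) + 1) := by ring

end

section

open Set Filter Topology

variable {W : Type*} [LinearOrder W] [WellFoundedLT W] {R : RhoSys W}

omit [WellFoundedLT W] in
theorem interleave {D β : ℕ → W} (h1 : ∀ i, D i < β i) (h2 : ∀ i, β i < D (i + 1)) :
    ∃ a : ℕ → W, StrictMono a ∧ (∀ i, a (2 * i) = D i) ∧ ∀ i, a (2 * i + 1) = β i := by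
  refine ⟨fun k => if k % 2 = 0 then D (k / 2) else β (k / 2), ?_, ?_, ?_⟩
  · apply strictMono_nat_of_lt_succ
    intro k
    rcases Nat.even_or_odd' k with ⟨i, rfl | rfl⟩
    · have e1 : 2 * i % 2 = 0 := by omega
      have e2 : (2 * i + 1) % 2 = 1 := by omega
      have e3 : 2 * i / 2 = i := by omega
      have e4 : (2 * i + 1) / 2 = i := by omega
      simp only [e1, e2, e3, e4, if_true, one_ne_zero, if_false]
      exact h1 i
    · have e1 : (2 * i + 1) % 2 = 1 := by omega
      have e2 : (2 * i + 1 + 1) % 2 = 0 := by omega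
      have e3 : (2 * i + 1) / 2 = i := by omega
      have e4 : (2 * i + 1 + 1) / 2 = i + 1 := by omega
      simp only [e1, e2, e3, e4, if_true, one_ne_zero, if_false]
      exact h2 i
  · intro i
    have e1 : 2 * i % 2 = 0 := by omega
    have e3 : 2 * i / 2 = i := by omega
    simp only [e1, e3, if_true]
  · intro i
    have e2 : (2 * i + 1) % 2 = 1 := by omega
    have e4 : (2 * i + 1) / 2 = i := by omega
    simp only [e2, e4, one_ne_zero, if_false]

/-- The common limit function and its basic properties. -/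
theorem exists_phi (hc : ∀ a : W, (Iio a).Countable) (hu : ¬ (univ : Set W).Countable)
    {f : W → C(KK R, ℝ)} {C : ℝ} (H0 : ∀ a s, |f a s| ≤ C) (H1 : PairVar f C) :
    ∃ (Φ : C(KK R, ℝ)) (δ₀ : W) (d : ℝ), (∀ s, |Φ s| ≤ C) ∧
      (∀ δ ≥ δ₀, Good f δ → ∀ s, below δ s → ∀ α ≥ δ, f α s = Φ s) ∧
      (∀ δ ≥ δ₀, ∀ s, Φ (ret δ s) = Φ s) ∧ (∀ α ≥ δ₀, f α (xtop R) - Φ (xtop R) = d) := by
  obtain ⟨δs, hδs1, hδs2⟩ := exists_dstar hc hu H1
  obtain ⟨α₀, hα₀⟩ := eventually_const hc hu H1 (xtop R)
  refine ⟨⟨fun s => f δs (ret δs s), (f δs).continuous.comp (ret_continuous δs)⟩, max δs α₀,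
    f α₀ (xtop R) - f δs (ret δs (xtop R)), fun s => H0 _ _, ?_, ?_, ?_⟩
  · intro δ hδ hg s hs α hα
    show f α s = f δs (ret δs s)
    rw [hg.2 s hs α hα]
    exact hδs2 δ ((le_max_left _ _).trans hδ) hg s hs
  · intro δ hδ s
    show f δs (ret δs (ret δ s)) = f δs (ret δs s)
    rw [ret_ret ((le_max_left _ _).trans hδ)]
  · intro α hα
    show f α (xtop R) - f δs (ret δs (xtop R)) = _
    rw [hα₀ α ((le_max_right _ _).trans hα)]

omit [WellFoundedLT W] in
theorem isOpen_hasN (n : ℕ) : IsOpen {s : KK R | hasN s n} :=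
  (isClopen_coord (Sum.inl n) true).isOpen.preimage continuous_subtype_val

omit [WellFoundedLT W] in
theorem isClosed_hasN (n : ℕ) : IsClosed {s : KK R | hasN s n} :=
  (isClopen_coord (Sum.inl n) true).isClosed.preimage continuous_subtype_val

omit [WellFoundedLT W] in
theorem isOpen_hasW (b : W) : IsOpen {s : KK R | hasW s b} :=
  (isClopen_coord (Sum.inr b) true).isOpen.preimage continuous_subtype_val

omit [WellFoundedLT W] in
theorem isClosed_hasW (b : W) : IsClosed {s : KK R | hasW s b} :=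
  (isClopen_coord (Sum.inr b) true).isClosed.preimage continuous_subtype_val

omit [WellFoundedLT W] in
theorem ne_xtop_of_hasN {s : KK R} {n : ℕ} (h : hasN s n) : s ≠ xtop R := by
  rintro rfl
  exact infPt_hasN n h

/-- The point `(∞, λ)`. -/
noncomputable def pt (R : RhoSys W) (l : W) : KK R := infPt R (Iio l) fun _ ha _ hb =>
  lt_trans hb ha

omit [WellFoundedLT W] in
theorem ret_xtop (l : W) : ret l (xtop R) = pt R l := by
  apply ext_mem
  · intro n
    rw [ret_hasN]
    exact ⟨fun h => absurd h (infPt_hasN n), fun h => absurd h (infPt_hasN n)⟩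
  · intro b
    rw [ret_hasW]
    unfold xtop pt
    rw [infPt_hasW, infPt_hasW]
    exact ⟨fun h => h.2, fun h => ⟨trivial, h⟩⟩

omit [WellFoundedLT W] in
theorem tendsto_finPt (l : W) : Tendsto (fun n => finPt R l n) atTop (𝓝 (pt R l)) := by
  rw [tendsto_subtype_rng, tendsto_pi_nhds]
  rintro (m | b)
  · apply tendsto_const_nhds.congr'
    filter_upwards [eventually_gt_atTop m] with n hn
    refine (Bool.eq_iff_iff.mpr ?_).symm
    refine (finPt_hasN (R := R) (a := l) (n := n) (m := m)).trans ?_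
    exact ⟨fun h => absurd h (by omega), fun h => absurd h (infPt_hasN m)⟩
  · by_cases hb : b < l
    · obtain ⟨n₀, hn₀⟩ := R.cover l b hb
      apply tendsto_const_nhds.congr'
      filter_upwards [eventually_ge_atTop n₀] with n hn
      refine (Bool.eq_iff_iff.mpr ?_).symm
      refine (finPt_hasW (R := R) (a := l) (n := n) (b := b)).trans ?_
      exact ⟨fun _ => (infPt_hasW b).mpr hb, fun _ => R.mono l n₀ n hn hn₀⟩
    · apply tendsto_const_nhds.congr
      intro n
      refine (Bool.eq_iff_iff.mpr ?_).symm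
      refine (finPt_hasW (R := R) (a := l) (n := n) (b := b)).trans ?_
      exact ⟨fun h => absurd (R.lt l n b h) hb, fun h => absurd ((infPt_hasW b).mp h) hb⟩

/-- The case of a jump at the top point. -/
theorem caseA (hc : ∀ a : W, (Iio a).Countable) (hu : ¬ (univ : Set W).Countable)
    {f : W → C(KK R, ℝ)} {C : ℝ} (H1 : PairVar f C) {Φ : C(KK R, ℝ)} {δ₀ : W} {d : ℝ}
    (ha : ∀ δ ≥ δ₀, Good f δ → ∀ s, below δ s → ∀ α ≥ δ, f α s = Φ s)
    (hb : ∀ δ ≥ δ₀, ∀ s, Φ (ret δ s) = Φ s) (hd : ∀ α ≥ δ₀, f α (xtop R) - Φ (xtop R) = d)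
    {σ : ℝ} (hσ : |σ| = 1) (hσd : 0 < σ * d) : False := by
  -- compactness of the fibres
  have A1 : ∀ δ : W, ∃ δ₁ > δ, ∀ (n : ℕ) (s : KK R), hasN s n →
      ∃ β, δ < β ∧ β < δ₁ ∧ σ * (f β s - Φ s) < σ * d / 2 := by
    intro δ
    have h1 : ∀ n : ℕ, ∃ u : Finset {β : W // δ < β}, ∀ s : KK R, hasN s n →
        ∃ β ∈ u, σ * (f β.1 s - Φ s) < σ * d / 2 := by
      intro n
      by_contra hcon
      push Not at hcon
      have h2 : ({s : KK R | hasN s n} ∩ ⋂ β : {β : W // δ < β},
          {s : KK R | σ * d / 2 ≤ σ * (f β.1 s - Φ s)}).Nonempty := by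
        apply (isClosed_hasN n).isCompact.inter_iInter_nonempty
        · intro β
          exact isClosed_le continuous_const
            (continuous_const.mul ((f β.1).continuous.sub Φ.continuous))
        · intro u
          obtain ⟨s, hs1, hs2⟩ := hcon u
          refine ⟨s, hs1, ?_⟩
          simp only [mem_iInter]
          exact fun β hβ => hs2 β hβ
      obtain ⟨s, hs1, hs2⟩ := h2
      obtain ⟨δ', hδ'⟩ := exists_below_of_ne hc hu (ne_xtop_of_hasN hs1)
      obtain ⟨η, hη1, hη2⟩ := exists_good hc hu H1 (max (max δ' δ) δ₀)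
      have e1 : δ' < η := ((le_max_left _ _).trans (le_max_left _ _)).trans_lt hη1
      have e2 : δ < η := ((le_max_right _ _).trans (le_max_left _ _)).trans_lt hη1
      have e3 : δ₀ < η := (le_max_right _ _).trans_lt hη1
      have h3 : f η s = Φ s := ha η e3.le hη2 s (fun b hb => (hδ' b hb).trans e1) η le_rfl
      have h4 : s ∈ {s : KK R | σ * d / 2 ≤ σ * (f η s - Φ s)} := by
        have := mem_iInter.mp hs2 ⟨η, e2⟩
        exact this
      have h5 : σ * d / 2 ≤ σ * (f η s - Φ s) := h4
      rw [h3, sub_self, mul_zero] at h5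
      linarith
    choose u hu' using h1
    have hcount : ({δ} ∪ ⋃ n, (fun β : {β : W // δ < β} => β.1) '' (u n : Set {β : W // δ < β})).Countable :=
      (countable_singleton δ).union
        (countable_iUnion fun n => ((u n).countable_toSet).image _)
    obtain ⟨δ₁, hδ₁⟩ := exists_gt_of_countable hc hu hcount
    refine ⟨δ₁, hδ₁ δ (Or.inl rfl), fun n s hs => ?_⟩
    obtain ⟨β, hβ1, hβ2⟩ := hu' n s hs
    exact ⟨β.1, β.2, hδ₁ _ (Or.inr (mem_iUnion.mpr ⟨n, β, hβ1, rfl⟩)), hβ2⟩
  choose e1 he1 he2 using A1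
  have hnx := fun γ => exists_good hc hu H1 (e1 γ)
  choose nx hnx1 hnx2 using hnx
  have hnx3 : ∀ γ, γ < nx γ := fun γ => (he1 γ).trans (hnx1 γ)
  obtain ⟨γ₀, hγ₀1, hγ₀2⟩ := exists_good hc hu H1 δ₀
  have hmono := strictMono_iterate hnx3 γ₀
  have hgood : ∀ n, Good f (nx^[n] γ₀) := by
    intro n
    induction n with
    | zero => exact hγ₀2
    | succ n ih => rw [Function.iterate_succ_apply']; exact hnx2 _
  obtain ⟨l, hl1, hl2⟩ := exists_sup hc hu hmono
  have hgl := good_sup hmono hgood hl1 hl2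
  have hδl : δ₀ ≤ l := (hγ₀1.trans (hl1 0)).le
  have hval : ∀ α, δ₀ ≤ α → α < l → σ * (f α (pt R l) - Φ (pt R l)) = σ * d := by
    intro α h1 h2
    rw [← ret_xtop, hgl.1 α h2, hb l hδl, hd α h1]
  obtain ⟨N, hN⟩ := exists_nat_gt (4 * C / (σ * d))
  -- a point near `pt l`
  have hev : ∀ᶠ n in atTop, ∀ i ∈ Finset.range N,
      3 * (σ * d) / 4 < σ * (f (nx^[i] γ₀) (finPt R l n) - Φ (finPt R l n)) := by
    rw [Finset.eventually_all]
    intro i _
    have h1 : Tendsto (fun n => σ * (f (nx^[i] γ₀) (finPt R l n) - Φ (finPt R l n))) atTop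
        (𝓝 (σ * (f (nx^[i] γ₀) (pt R l) - Φ (pt R l)))) := by
      apply Tendsto.const_mul
      exact (((f _).continuous.tendsto _).comp (tendsto_finPt l)).sub
        ((Φ.continuous.tendsto _).comp (tendsto_finPt l))
    have h3 : δ₀ ≤ nx^[i] γ₀ := hγ₀1.le.trans (hmono.monotone (Nat.zero_le i))
    rw [hval _ h3 (hl1 i)] at h1
    exact h1.eventually (lt_mem_nhds (by linarith))
  obtain ⟨n, hn⟩ := hev.exists
  set s := finPt R l n with hs
  have hsn : hasN s n := finPt_hasN.mpr rfl
  have hβ := fun i => he2 (nx^[i] γ₀) n s hsn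
  choose β hβ1 hβ2 hβ3 using hβ
  obtain ⟨a, ha1, ha2, ha3⟩ := interleave (D := fun i => nx^[i] γ₀) (β := β) hβ1 (by
    intro i
    rw [Function.iterate_succ_apply']
    exact (hβ2 i).trans (hnx1 _))
  have h1 := H1 a ha1 N s
  have h2 : ∑ _i ∈ Finset.range N, σ * d / 4 ≤
      ∑ i ∈ Finset.range N, |f (a (2 * i + 1)) s - f (a (2 * i)) s| := by
    apply Finset.sum_le_sum
    intro i hi
    rw [ha2, ha3]
    have h3 := hn i hi
    have h4 := hβ3 i
    have h5 : σ * (f (nx^[i] γ₀) s - f (β i) s) ≤ |f (β i) s - f (nx^[i] γ₀) s| := by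
      calc σ * (f (nx^[i] γ₀) s - f (β i) s) ≤ |σ * (f (nx^[i] γ₀) s - f (β i) s)| := le_abs_self _
        _ = |f (β i) s - f (nx^[i] γ₀) s| := by rw [abs_mul, hσ, one_mul, abs_sub_comm]
    refine le_trans ?_ h5
    have h6 : σ * (f (nx^[i] γ₀) s - f (β i) s) =
        σ * (f (nx^[i] γ₀) s - Φ s) - σ * (f (β i) s - Φ s) := by ring
    rw [h6]
    linarith
  rw [Finset.sum_const, Finset.card_range, nsmul_eq_mul] at h2
  rw [div_lt_iff₀ hσd] at hN
  linarith

end

section

open Set Filter Topology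

variable {W : Type*} [LinearOrder W] [WellFoundedLT W] {R : RhoSys W}

omit [WellFoundedLT W] in
theorem caseB_local {f : W → C(KK R, ℝ)} {Φ : C(KK R, ℝ)} {δ₀ : W}
    (ha : ∀ δ ≥ δ₀, Good f δ → ∀ s, below δ s → ∀ α ≥ δ, f α s = Φ s)
    (hb : ∀ δ ≥ δ₀, ∀ s, Φ (ret δ s) = Φ s) (hd : ∀ α ≥ δ₀, f α (xtop R) - Φ (xtop R) = 0)
    {δ δ' : W} (h0 : δ₀ ≤ δ) (hg : Good f δ) (hlt : δ < δ') (hg' : Good f δ') {ε : ℝ}
    (hε : 0 < ε) : ∃ M : ℕ, ∀ s, ε ≤ |f δ s - Φ s| →
      (hasW s δ ∧ ¬ hasW s δ') ∨ ∃ n < M, hasN s n := by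
  have key : ∃ u : Finset ℕ, ∀ s : KK R, ε ≤ |f δ s - Φ s| → ¬ (hasW s δ ∧ ¬ hasW s δ') →
      ∃ n ∈ u, hasN s n := by
    by_contra hcon
    push Not at hcon
    have h2 : (({s : KK R | ε ≤ |f δ s - Φ s|} ∩ ({s | hasW s δ} ∩ {s | hasW s δ'}ᶜ)ᶜ) ∩
        ⋂ n : ℕ, {s : KK R | hasN s n}ᶜ).Nonempty := by
      apply IsCompact.inter_iInter_nonempty
      · apply IsClosed.isCompact
        apply IsClosed.inter
        · exact isClosed_le continuous_const ((f δ).continuous.sub Φ.continuous).abs
        · exact ((isOpen_hasW δ).inter (isClosed_hasW δ').isOpen_compl).isClosed_compl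
      · intro n
        exact (isOpen_hasN n).isClosed_compl
      · intro u
        obtain ⟨s, hs1, hs2, hs3⟩ := hcon u
        refine ⟨s, ⟨hs1, fun h => ?_⟩, ?_⟩
        · exact h.2 (hs2 h.1)
        · simp only [mem_iInter]
          exact fun n hn => hs3 n hn
    obtain ⟨s, ⟨hs1, hs2⟩, hs3⟩ := h2
    have hs1' : ε ≤ |f δ s - Φ s| := hs1
    have hno : ∀ n, ¬ hasN s n := fun n => mem_iInter.mp hs3 n
    by_cases hδ : hasW s δ
    · have hδ' : hasW s δ' := by
        by_contra hcon2
        exact hs2 ⟨hδ, hcon2⟩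
      have h3 : ret δ' s = ret δ' (xtop R) := by
        apply ext_mem
        · intro n
          rw [ret_hasN, ret_hasN]
          exact ⟨fun h => absurd h (hno n), fun h => absurd h (infPt_hasN n)⟩
        · intro b
          rw [ret_hasW, ret_hasW]
          refine ⟨fun h => ⟨(infPt_hasW b).mpr trivial, h.2⟩, fun h => ⟨?_, h.2⟩⟩
          exact lower_of_noN hno hδ' h.2
      have h4 : f δ s = f δ (xtop R) := by
        rw [← hg'.1 δ hlt s, h3, hg'.1 δ hlt]
      have h5 : Φ s = Φ (xtop R) := by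
        rw [← hb δ' (h0.trans hlt.le) s, h3, hb δ' (h0.trans hlt.le)]
      rw [h4, h5, hd δ h0, abs_zero] at hs1'
      linarith
    · have h3 : below δ s := by
        intro b hbs
        by_contra hcon2
        push Not at hcon2
        rcases hcon2.lt_or_eq with h | h
        · exact hδ (lower_of_noN hno hbs h)
        · rw [h] at hδ; exact hδ hbs
      rw [ha δ h0 hg s h3 δ le_rfl, sub_self, abs_zero] at hs1'
      linarith
  obtain ⟨u, hu⟩ := key
  refine ⟨u.sup id + 1, fun s hs => ?_⟩
  by_cases h : hasW s δ ∧ ¬ hasW s δ'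
  · left; exact h
  · right
    obtain ⟨n, hn1, hn2⟩ := hu s hs h
    exact ⟨n, Nat.lt_succ_of_le (Finset.le_sup (f := id) hn1), hn2⟩

/-- The case without a jump at the top point. -/
theorem caseB (hc : ∀ a : W, (Iio a).Countable) (hu : ¬ (univ : Set W).Countable)
    {f : W → C(KK R, ℝ)} {C c : ℝ} (H0 : ∀ a s, |f a s| ≤ C) (H1 : PairVar f C) (hcpos : 0 < c)
    (H2 : ∀ a : ℕ → W, StrictMono a → ∀ N : ℕ, ∃ s : KK R,
      c * N ≤ |∑ i ∈ Finset.range N, f (a i) s - ∑ i ∈ Finset.range N, f (a (N + i)) s|)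
    {Φ : C(KK R, ℝ)} {δ₀ : W} (hΦ : ∀ s, |Φ s| ≤ C)
    (ha : ∀ δ ≥ δ₀, Good f δ → ∀ s, below δ s → ∀ α ≥ δ, f α s = Φ s)
    (hb : ∀ δ ≥ δ₀, ∀ s, Φ (ret δ s) = Φ s) (hd : ∀ α ≥ δ₀, f α (xtop R) - Φ (xtop R) = 0) :
    False := by
  classical
  have hWne : Nonempty W := ⟨δ₀⟩
  have hC : 0 ≤ C := (abs_nonneg _).trans (H0 δ₀ (xtop R))
  set ε := c / 4 with hε
  have hεpos : 0 < ε := by positivity
  have hgd := fun γ => exists_good hc hu H1 γ
  choose gd hgd1 hgd2 using hgd
  -- bounds for one index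
  have hM : ∀ δ : W, ∃ M : ℕ, δ₀ ≤ δ → Good f δ → ∀ s,
      (ε ≤ |f δ s - Φ s| → (hasW s δ ∧ ¬ hasW s (gd δ)) ∨ ∃ n < M, hasN s n) ∧
      (ε / 2 ≤ |f (gd δ) s - Φ s| → (hasW s (gd δ)) ∨ ∃ n < M, hasN s n) := by
    intro δ
    by_cases h : δ₀ ≤ δ ∧ Good f δ
    · obtain ⟨M₁, hM₁⟩ := caseB_local ha hb hd h.1 h.2 (hgd1 δ) (hgd2 δ) hεpos
      obtain ⟨M₂, hM₂⟩ := caseB_local ha hb hd (h.1.trans (hgd1 δ).le) (hgd2 δ) (hgd1 (gd δ))
        (hgd2 (gd δ)) (half_pos hεpos)
      refine ⟨max M₁ M₂, fun _ _ s => ⟨fun hs => ?_, fun hs => ?_⟩⟩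
      · rcases hM₁ s hs with h3 | ⟨n, hn, hns⟩
        · left; exact h3
        · right; exact ⟨n, hn.trans_le (le_max_left _ _), hns⟩
      · rcases hM₂ s hs with h3 | ⟨n, hn, hns⟩
        · left; exact h3.1
        · right; exact ⟨n, hn.trans_le (le_max_right _ _), hns⟩
    · exact ⟨0, fun h1 h2 => absurd ⟨h1, h2⟩ h⟩
  choose Mf hMf using hM
  have hcof : ∃ M : ℕ, ∀ γ : W, ∃ δ > γ, δ₀ ≤ δ ∧ Good f δ ∧ Mf δ ≤ M := by
    by_contra hcon
    push Not at hcon
    choose γ hγ using hcon
    obtain ⟨b, hbb⟩ := exists_gt_of_countable hc hu (countable_range γ)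
    obtain ⟨δ, hδ1, hδ2⟩ := exists_good hc hu H1 (max b δ₀)
    have e1 : b < δ := (le_max_left _ _).trans_lt hδ1
    have e2 : δ₀ < δ := (le_max_right _ _).trans_lt hδ1
    have := hγ (Mf δ) δ ((hbb _ (mem_range_self _)).trans e1) e2.le hδ2
    exact lt_irrefl _ this
  obtain ⟨M, hM⟩ := hcof
  choose nx hnx1 hnx2 hnx3 hnx4 using hM
  -- the sequence
  have hstep : ∀ γ, γ < nx (gd γ) := fun γ => (hgd1 γ).trans (hnx1 _)
  let D : ℕ → W := fun i => (fun γ => nx (gd γ))^[i] (nx δ₀)
  have hD0 : ∀ i, D (i + 1) = nx (gd (D i)) := fun i => Function.iterate_succ_apply' _ _ _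
  have hDmono : StrictMono D := strictMono_iterate hstep _
  have hDp : ∀ i, δ₀ ≤ D i ∧ Good f (D i) ∧ Mf (D i) ≤ M := by
    intro i
    cases i with
    | zero => exact ⟨hnx2 _, hnx3 _, hnx4 _⟩
    | succ i => rw [hD0]; exact ⟨hnx2 _, hnx3 _, hnx4 _⟩
  have hDgd : ∀ i, gd (D i) < D (i + 1) := fun i => by rw [hD0]; exact hnx1 _
  obtain ⟨a, ha1, ha2, ha3⟩ := interleave (D := D) (β := fun i => gd (D i))
    (fun i => hgd1 _) hDgd
  set Q : ℝ := M + 2 * C / ε with hQ
  have hQ0 : 0 ≤ Q := by positivity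
  -- counting
  have hcount : ∀ (K : ℕ) (s : KK R),
      (((Finset.range K).filter fun i => ε ≤ |f (D i) s - Φ s|).card : ℝ) ≤ Q := by
    intro K s
    set Is := (Finset.range K).filter fun i => ε ≤ |f (D i) s - Φ s| with hIs
    by_cases hn : ∃ n < M, hasN s n
    · obtain ⟨n, hnM, hns⟩ := hn
      have hex : ∀ i ∈ Is, ∃ b, hasW s b ∧ D i ≤ b ∧ b < gd (D i) := by
        intro i hi
        by_contra hcon
        push Not at hcon
        have h1 : below (D i) (ret (gd (D i)) s) := by
          intro b hbs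
          rw [ret_hasW] at hbs
          by_contra h2
          push Not at h2
          exact absurd hbs.2 (not_lt.mpr (hcon b hbs.1 h2))
        have h2 : f (D i) s = Φ s := by
          rw [← (hgd2 (D i)).1 (D i) (hgd1 _) s, ← hb (gd (D i)) ((hDp i).1.trans (hgd1 _).le) s]
          exact ha (D i) (hDp i).1 (hDp i).2.1 _ h1 _ le_rfl
        have h3 := (Finset.mem_filter.mp hi).2
        rw [h2, sub_self, abs_zero] at h3
        linarith
      choose! b hb1 hb2 hb3 using hex
      have hinj : Set.InjOn b (Is : Set ℕ) := by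
        intro i hi j hj hij
        by_contra hne
        rcases lt_or_gt_of_ne hne with h | h
        · have h1 : gd (D i) < D (i + 1) := hDgd i
          have h2 : D (i + 1) ≤ D j := hDmono.monotone h
          have h3 := hb3 i hi
          have h4 := hb2 j hj
          rw [hij] at h3
          exact absurd (h3.trans (h1.trans_le h2)) (not_lt.mpr h4)
        · have h1 : gd (D j) < D (j + 1) := hDgd j
          have h2 : D (j + 1) ≤ D i := hDmono.monotone h
          have h3 := hb3 j hj
          have h4 := hb2 i hi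
          rw [← hij] at h3
          exact absurd (h3.trans (h1.trans_le h2)) (not_lt.mpr h4)
      have h1 : (Is.image b).card = Is.card := Finset.card_image_of_injOn hinj
      have h2 : (Is.image b).card ≤ n := by
        apply card_le hns
        intro x hx
        obtain ⟨i, hi, rfl⟩ := Finset.mem_image.mp hx
        exact hb1 i hi
      have h3 : (Is.card : ℝ) ≤ M := by
        have : Is.card ≤ M := by omega
        exact_mod_cast this
      have h4 : 0 ≤ 2 * C / ε := by positivity
      linarith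
    · have hterm : ∀ i ∈ Is, ε / 2 ≤ |f (a (2 * i + 1)) s - f (a (2 * i)) s| := by
        intro i hi
        have h3 := (Finset.mem_filter.mp hi).2
        obtain ⟨p1, p2, p3⟩ := hDp i
        obtain ⟨q1, q2⟩ := hMf (D i) p1 p2 s
        have h4 : hasW s (D i) ∧ ¬ hasW s (gd (D i)) := by
          rcases q1 h3 with h | ⟨n, hn1, hn2⟩
          · exact h
          · exact absurd ⟨n, hn1.trans_le p3, hn2⟩ hn
        have h5 : |f (gd (D i)) s - Φ s| < ε / 2 := by
          by_contra hcon
          push Not at hcon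
          rcases q2 hcon with h | ⟨n, hn1, hn2⟩
          · exact h4.2 h
          · exact hn ⟨n, hn1.trans_le p3, hn2⟩
        rw [ha2, ha3]
        have h6 : |f (D i) s - Φ s| ≤ |f (gd (D i)) s - f (D i) s| + |f (gd (D i)) s - Φ s| := by
          have : f (D i) s - Φ s = -(f (gd (D i)) s - f (D i) s) + (f (gd (D i)) s - Φ s) := by
            ring
          rw [this]
          refine (abs_add_le _ _).trans ?_
          rw [abs_neg]
        linarith
      have h1 := H1 a ha1 K s
      have h2 : ∑ i ∈ Is, |f (a (2 * i + 1)) s - f (a (2 * i)) s| ≤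
          ∑ i ∈ Finset.range K, |f (a (2 * i + 1)) s - f (a (2 * i)) s| :=
        Finset.sum_le_sum_of_subset_of_nonneg (Finset.filter_subset _ _)
          fun _ _ _ => abs_nonneg _
      have h3 : ∑ _i ∈ Is, ε / 2 ≤ ∑ i ∈ Is, |f (a (2 * i + 1)) s - f (a (2 * i)) s| :=
        Finset.sum_le_sum hterm
      rw [Finset.sum_const, nsmul_eq_mul] at h3
      have h4 : (Is.card : ℝ) ≤ 2 * C / ε := by
        rw [le_div_iff₀ hεpos]
        linarith
      have h5 : (0 : ℝ) ≤ M := Nat.cast_nonneg M
      linarith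
  -- conclusion
  obtain ⟨N, hN⟩ := exists_nat_gt (4 * C * Q / c)
  obtain ⟨s, hs⟩ := H2 D hDmono N
  have h1 : |∑ i ∈ Finset.range N, f (D i) s - ∑ i ∈ Finset.range N, f (D (N + i)) s| ≤
      ∑ i ∈ Finset.range (N + N), |f (D i) s - Φ s| := by
    have e1 : ∑ i ∈ Finset.range N, f (D i) s - ∑ i ∈ Finset.range N, f (D (N + i)) s =
        ∑ i ∈ Finset.range N, (f (D i) s - Φ s) -
          ∑ i ∈ Finset.range N, (f (D (N + i)) s - Φ s) := by
      rw [Finset.sum_sub_distrib, Finset.sum_sub_distrib]; ring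
    rw [e1, Finset.sum_range_add]
    refine (abs_sub _ _).trans (add_le_add ?_ ?_)
    · exact Finset.abs_sum_le_sum_abs _ _
    · exact Finset.abs_sum_le_sum_abs _ _
  have h2 : ∑ i ∈ Finset.range (N + N), |f (D i) s - Φ s| ≤ (N + N : ℕ) * ε + Q * (2 * C) := by
    have e1 : ∀ i ∈ Finset.range (N + N), |f (D i) s - Φ s| ≤
        ε + (if ε ≤ |f (D i) s - Φ s| then 2 * C else 0) := by
      intro i _
      split_ifs with h
      · have h3 : |f (D i) s - Φ s| ≤ |f (D i) s| + |Φ s| := abs_sub _ _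
        have h4 := H0 (D i) s
        have h5 := hΦ s
        linarith
      · push Not at h
        linarith
    refine (Finset.sum_le_sum e1).trans ?_
    rw [Finset.sum_add_distrib, Finset.sum_const, Finset.card_range, nsmul_eq_mul,
      ← Finset.sum_filter, Finset.sum_const, nsmul_eq_mul]
    have h3 := hcount (N + N) s
    have h4 : 0 ≤ 2 * C := by linarith
    exact add_le_add le_rfl (mul_le_mul_of_nonneg_right h3 h4)
  rw [div_lt_iff₀ hcpos] at hN
  push_cast at h2
  have h3 : c * N ≤ (N + N) * ε + Q * (2 * C) := hs.trans (h1.trans h2)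
  rw [hε] at h3
  nlinarith

end

section

open Set Filter Topology
open scoped Ordinal

/-- The index set of order type `ω₁`. -/
abbrev W1 : Type := (ω_ 1 : Ordinal.{0}).ToType

/-- The ordinal of an index. -/
noncomputable def od (a : W1) : Ordinal.{0} := ((Ordinal.ToType.mk.symm a : Set.Iio (ω_ 1 : Ordinal.{0})) : Ordinal)

theorem od_lt (a : W1) : od a < ω_ 1 := (Ordinal.ToType.mk.symm a).2

theorem od_lt_od {a b : W1} : od a < od b ↔ a < b := by
  unfold od
  rw [Subtype.coe_lt_coe]
  exact Ordinal.ToType.mk.symm.lt_iff_lt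

theorem exists_od {x : Ordinal.{0}} (hx : x < ω_ 1) : ∃ a : W1, od a = x := by
  refine ⟨Ordinal.ToType.mk ⟨x, hx⟩, ?_⟩
  unfold od
  rw [OrderIso.symm_apply_apply]

theorem Iio_ord_countable {x : Ordinal.{0}} (hx : x < ω_ 1) : (Iio x).Countable := by
  rw [Cardinal.countable_iff_lt_aleph_one, Cardinal.mk_Iio_ordinal, Cardinal.lift_lt_aleph_one]
  rw [← Cardinal.ord_aleph, Cardinal.lt_ord] at hx
  exact hx

theorem W1_Iio (a : W1) : (Iio a).Countable := by
  have h1 : Set.InjOn od (Iio a) := by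
    intro x _ y _ h
    rcases lt_trichotomy x y with h2 | h2 | h2
    · exact absurd h (od_lt_od.mpr h2).ne
    · exact h2
    · exact absurd h (od_lt_od.mpr h2).ne'
  have h2 : (od '' Iio a).Countable := by
    apply (Iio_ord_countable (od_lt a)).mono
    rintro _ ⟨b, hb, rfl⟩
    exact od_lt_od.mpr hb
  exact Set.countable_of_injective_of_countable_image h1 h2

theorem W1_unc : ¬ (univ : Set W1).Countable := by
  rw [Set.countable_univ_iff, not_countable_iff, ← Cardinal.aleph0_lt_mk_iff, Cardinal.mk_toType,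
    ← Cardinal.ord_aleph, Cardinal.card_ord]
  exact Cardinal.aleph0_lt_aleph_one

/-- The set of points of the segment above `od a`. -/
theorem isClopen_above (x : Ordinal.{0}) : IsClopen {l : Seg | x < (l : Ordinal.{0})} := by
  constructor
  · have : {l : Seg | x < (l : Ordinal.{0})} = (Subtype.val ⁻¹' Iio (Order.succ x))ᶜ := by
      ext l
      simp only [mem_ofPred_eq, mem_compl_iff, mem_preimage, mem_Iio, Order.lt_succ_iff, not_le]
    rw [this]
    exact (isOpen_Iio.preimage continuous_subtype_val).isClosed_compl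
  · exact isOpen_Ioi.preimage continuous_subtype_val

/-- The indicator function of the points above `od a`. -/
noncomputable def chi (a : W1) : C(Seg, ℝ) :=
  ⟨Set.indicator {l : Seg | od a < (l : Ordinal.{0})} 1,
    (isClopen_above _).continuous_indicator continuous_const⟩

theorem chi_of_lt {a : W1} {l : Seg} (h : od a < (l : Ordinal.{0})) : chi a l = 1 := by
  show Set.indicator _ _ _ = _
  rw [Set.indicator_of_mem (show l ∈ {l : Seg | od a < (l : Ordinal.{0})} from h)]
  rfl

theorem chi_of_le {a : W1} {l : Seg} (h : (l : Ordinal.{0}) ≤ od a) : chi a l = 0 := by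
  show Set.indicator _ _ _ = _
  rw [Set.indicator_of_notMem]
  exact fun h2 : od a < (l : Ordinal.{0}) => absurd h2 (not_lt.mpr h)

theorem chi_nonneg (a : W1) (l : Seg) : 0 ≤ chi a l := by
  rcases lt_or_ge (od a) (l : Ordinal.{0}) with h | h
  · rw [chi_of_lt h]; exact zero_le_one
  · rw [chi_of_le h]

theorem chi_le_one (a : W1) (l : Seg) : chi a l ≤ 1 := by
  rcases lt_or_ge (od a) (l : Ordinal.{0}) with h | h
  · rw [chi_of_lt h]
  · rw [chi_of_le h]; exact zero_le_one

theorem chi_anti {a b : W1} (h : a ≤ b) (l : Seg) : chi b l ≤ chi a l := by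
  rcases lt_or_ge (od b) (l : Ordinal.{0}) with h1 | h1
  · have h2 : od a ≤ od b := by
      by_contra hcon
      push Not at hcon
      exact absurd (od_lt_od.mp hcon) (not_lt.mpr h)
    rw [chi_of_lt (h2.trans_lt h1)]
    exact chi_le_one _ _
  · rw [chi_of_le h1]; exact chi_nonneg _ _

theorem norm_chi_le (a : W1) : ‖chi a‖ ≤ 1 := by
  rw [ContinuousMap.norm_le _ zero_le_one]
  intro l
  rw [Real.norm_eq_abs, abs_of_nonneg (chi_nonneg a l)]
  exact chi_le_one a l

/-- Pairwise variation of indicators. -/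
theorem sum_chi_le {a : ℕ → W1} (ha : StrictMono a) (N : ℕ) (l : Seg) :
    ∑ i ∈ Finset.range N, (chi (a (2 * i)) l - chi (a (2 * i + 1)) l) ≤
      chi (a 0) l - chi (a (2 * N)) l := by
  induction N with
  | zero => simp
  | succ N ih =>
    rw [Finset.sum_range_succ]
    have h1 : chi (a (2 * (N + 1))) l ≤ chi (a (2 * N + 1)) l :=
      chi_anti (ha.monotone (by omega)) l
    linarith

variable {R : RhoSys W1}

theorem pairVar_of_map (T : C(Seg, ℝ) →L[ℝ] C(KK R, ℝ)) : PairVar (fun a => T (chi a)) ‖T‖ := by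
  intro a ha N s
  let ε : ℕ → ℝ := fun i => SignType.sign (T (chi (a (2 * i + 1))) s - T (chi (a (2 * i))) s)
  let h : C(Seg, ℝ) := ∑ i ∈ Finset.range N, ε i • (chi (a (2 * i + 1)) - chi (a (2 * i)))
  have hε : ∀ i, |ε i| ≤ 1 := by
    intro i
    simp only [ε]
    rcases lt_trichotomy (T (chi (a (2 * i + 1))) s - T (chi (a (2 * i))) s) 0 with h | h | h
    · rw [sign_neg h]; simp
    · rw [h, sign_zero]; simp
    · rw [sign_pos h]; simp
  have hnorm : ‖h‖ ≤ 1 := by
    rw [ContinuousMap.norm_le _ zero_le_one]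
    intro l
    rw [Real.norm_eq_abs]
    have e1 : h l = ∑ i ∈ Finset.range N, ε i * (chi (a (2 * i + 1)) l - chi (a (2 * i)) l) := by
      simp only [h, ContinuousMap.coe_sum, Finset.sum_apply, ContinuousMap.coe_smul, Pi.smul_apply,
        ContinuousMap.coe_sub, Pi.sub_apply, smul_eq_mul]
    rw [e1]
    calc |∑ i ∈ Finset.range N, ε i * (chi (a (2 * i + 1)) l - chi (a (2 * i)) l)|
        ≤ ∑ i ∈ Finset.range N, |ε i * (chi (a (2 * i + 1)) l - chi (a (2 * i)) l)| :=
          Finset.abs_sum_le_sum_abs _ _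
      _ ≤ ∑ i ∈ Finset.range N, (chi (a (2 * i)) l - chi (a (2 * i + 1)) l) := by
          apply Finset.sum_le_sum
          intro i _
          have h1 : chi (a (2 * i + 1)) l ≤ chi (a (2 * i)) l := chi_anti (ha.monotone (by omega)) l
          rw [abs_mul, abs_sub_comm, abs_of_nonneg (sub_nonneg.mpr h1)]
          have h2 := hε i
          have h3 := sub_nonneg.mpr h1
          nlinarith
      _ ≤ chi (a 0) l - chi (a (2 * N)) l := sum_chi_le ha N l
      _ ≤ 1 := by
          have h1 := chi_le_one (a 0) l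
          have h2 := chi_nonneg (a (2 * N)) l
          linarith
  have e2 : T h s = ∑ i ∈ Finset.range N, |T (chi (a (2 * i + 1))) s - T (chi (a (2 * i))) s| := by
    simp only [h, map_sum, map_smul, map_sub, ContinuousMap.coe_sum, Finset.sum_apply,
      ContinuousMap.coe_smul, Pi.smul_apply, ContinuousMap.coe_sub, Pi.sub_apply, smul_eq_mul]
    apply Finset.sum_congr rfl
    intro i _
    simp only [ε]
    exact sign_mul_self _
  rw [← e2]
  calc T h s ≤ ‖T h s‖ := Real.le_norm_self _
    _ ≤ ‖T h‖ := (T h).norm_coe_le_norm s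
    _ ≤ ‖T‖ * ‖h‖ := T.le_opNorm h
    _ ≤ ‖T‖ * 1 := mul_le_mul_of_nonneg_left hnorm T.opNorm_nonneg
    _ = ‖T‖ := mul_one _

/-- No bounded below operator. -/
theorem no_embedding (T : C(Seg, ℝ) →L[ℝ] C(KK R, ℝ)) {A : ℝ} (hA : 0 < A)
    (hT : ∀ g, ‖g‖ ≤ A * ‖T g‖) : False := by
  set C := ‖T‖ with hC
  have H0 : ∀ a s, |T (chi a) s| ≤ C := by
    intro a s
    rw [← Real.norm_eq_abs]
    calc ‖T (chi a) s‖ ≤ ‖T (chi a)‖ := (T (chi a)).norm_coe_le_norm s
      _ ≤ ‖T‖ * ‖chi a‖ := T.le_opNorm _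
      _ ≤ ‖T‖ * 1 := mul_le_mul_of_nonneg_left (norm_chi_le a) T.opNorm_nonneg
      _ = C := mul_one _
  have H1 : PairVar (fun a => T (chi a)) C := pairVar_of_map T
  have H2 : ∀ a : ℕ → W1, StrictMono a → ∀ N : ℕ, ∃ s : KK R,
      (1 / (2 * A)) * N ≤ |∑ i ∈ Finset.range N, T (chi (a i)) s -
        ∑ i ∈ Finset.range N, T (chi (a (N + i))) s| := by
    intro a ha N
    by_contra hcon
    push Not at hcon
    let h : C(Seg, ℝ) := ∑ i ∈ Finset.range N, chi (a i) - ∑ i ∈ Finset.range N, chi (a (N + i))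
    have e1 : ∀ s, T h s = ∑ i ∈ Finset.range N, T (chi (a i)) s -
        ∑ i ∈ Finset.range N, T (chi (a (N + i))) s := by
      intro s
      simp only [h, map_sum, map_sub, ContinuousMap.coe_sum, Finset.sum_apply,
        ContinuousMap.coe_sub, Pi.sub_apply]
    have e2 : ‖T h‖ ≤ (1 / (2 * A)) * N := by
      rw [ContinuousMap.norm_le _ (by positivity)]
      intro s
      rw [Real.norm_eq_abs, e1]
      exact (hcon s).le
    have e3 : (N : ℝ) ≤ ‖h‖ := by
      let l : Seg := ⟨od (a N), (od_lt _).le⟩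
      have e4 : h l = N := by
        simp only [h, ContinuousMap.coe_sub, Pi.sub_apply, ContinuousMap.coe_sum,
          Finset.sum_apply]
        have e5 : ∑ i ∈ Finset.range N, chi (a i) l = N := by
          rw [Finset.sum_congr rfl (g := fun _ => (1 : ℝ))]
          · simp
          · intro i hi
            exact chi_of_lt (od_lt_od.mpr (ha (Finset.mem_range.mp hi)))
        have e6 : ∑ i ∈ Finset.range N, chi (a (N + i)) l = 0 := by
          apply Finset.sum_eq_zero
          intro i _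
          apply chi_of_le
          show od (a N) ≤ od (a (N + i))
          by_contra hcon2
          push Not at hcon2
          exact absurd (od_lt_od.mp hcon2) (not_lt.mpr (ha.monotone (by omega)))
        rw [e5, e6, sub_zero]
      calc (N : ℝ) = h l := e4.symm
        _ ≤ ‖h l‖ := Real.le_norm_self _
        _ ≤ ‖h‖ := h.norm_coe_le_norm l
    have e7 := hT h
    have e8 : A * ‖T h‖ ≤ A * ((1 / (2 * A)) * N) := mul_le_mul_of_nonneg_left e2 hA.le
    have e9 : A * ((1 / (2 * A)) * N) = N / 2 := by field_simp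
    have e10 : (N : ℝ) ≤ N / 2 := by linarith
    have e11 : (N : ℝ) ≤ 0 := by linarith
    have e12 : N = 0 := by
      have : (0 : ℝ) ≤ N := Nat.cast_nonneg N
      exact_mod_cast le_antisymm e11 this
    have e13 := hcon (xtop R)
    rw [e12] at e13
    simp at e13
  obtain ⟨Φ, δ₀, d, hΦ, ha, hb, hd⟩ := exists_phi W1_Iio W1_unc H0 H1
  rcases lt_trichotomy d 0 with h | h | h
  · exact caseA W1_Iio W1_unc H1 ha hb hd (σ := -1) (by simp) (by linarith)
  · subst h
    exact caseB W1_Iio W1_unc H0 H1 (c := 1 / (2 * A)) (by positivity) H2 hΦ ha hb hd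
  · exact caseA W1_Iio W1_unc H1 ha hb hd (σ := 1) (by simp) (by linarith)

theorem not_embedsInto : ¬ EmbedsInto C(Seg, ℝ) C(KK R, ℝ) := by
  rintro ⟨S, -, ⟨e⟩⟩
  let T : C(Seg, ℝ) →L[ℝ] C(KK R, ℝ) := S.subtypeL.comp (e : C(Seg, ℝ) →L[ℝ] S)
  apply no_embedding T (A := ‖(e.symm : S →L[ℝ] C(Seg, ℝ))‖ + 1) (by positivity)
  intro g
  have h1 : ‖g‖ ≤ ‖(e.symm : S →L[ℝ] C(Seg, ℝ))‖ * ‖e g‖ := by
    have := (e.symm : S →L[ℝ] C(Seg, ℝ)).le_opNorm (e g)
    simpa using this
  have h2 : ‖T g‖ = ‖e g‖ := rfl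
  rw [h2]
  have := norm_nonneg (e g)
  nlinarith

/-- The Valdivia embedding. -/
noncomputable def hval (s : KK R) : ℕ ⊕ W1 → ℝ := fun γ => if s.1 γ = true then 1 else 0

theorem valdivia : IsValdivia (KK R) := by
  have hcont : Continuous (hval (R := R)) := by
    apply continuous_pi
    intro γ
    have h1 : Continuous fun s : KK R => s.1 γ := (continuous_apply γ).comp continuous_subtype_val
    have h2 : Continuous fun v : Bool => if v = true then (1 : ℝ) else 0 :=
      continuous_of_discreteTopology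
    exact h2.comp h1
  have hinj : Function.Injective (hval (R := R)) := by
    intro s t h
    apply Subtype.ext
    funext γ
    have h1 := congrFun h γ
    simp only [hval] at h1
    cases hs : s.1 γ <;> cases ht : t.1 γ <;> simp [hs, ht] at h1 ⊢
  refine ⟨ℕ ⊕ W1, hval, (hcont.isClosedEmbedding hinj).isEmbedding, ?_⟩
  have hsupp : ∀ s : KK R, s ≠ xtop R → hval s ∈ Set.range (hval (R := R)) ∩ SigmaProd (ℕ ⊕ W1) := by
    intro s hs
    refine ⟨mem_range_self s, ?_⟩
    obtain ⟨δ, hδ⟩ := exists_below_of_ne W1_Iio W1_unc hs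
    have h1 : ((Sum.inl '' (univ : Set ℕ)) ∪ (Sum.inr '' Iio δ) : Set (ℕ ⊕ W1)).Countable :=
      (countable_univ.image _).union ((W1_Iio δ).image _)
    apply h1.mono
    rintro (n | b) hγ
    · left; exact ⟨n, trivial, rfl⟩
    · right
      refine ⟨b, hδ b ?_, rfl⟩
      by_contra hcon
      apply hγ
      simp only [hval]
      exact if_neg hcon
  rintro _ ⟨s, rfl⟩
  by_cases hs : s = xtop R
  · subst hs
    have h1 : xtop R ∈ closure (Set.range (pt R)) := by
      rw [mem_closure_iff_nhds]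
      intro U hU
      obtain ⟨F, hF⟩ := exists_cylinder hU
      have hcount : {b : W1 | Sum.inr b ∈ F}.Countable :=
        (F.countable_toSet).preimage Sum.inr_injective
      obtain ⟨l, hl⟩ := exists_gt_of_countable W1_Iio W1_unc hcount
      refine ⟨pt R l, hF _ ?_, mem_range_self l⟩
      rintro (n | b) hγ
      · apply Bool.eq_iff_iff.mpr
        exact ⟨fun h => absurd h (infPt_hasN n), fun h => absurd h (infPt_hasN n)⟩
      · apply Bool.eq_iff_iff.mpr
        exact ⟨fun _ => (infPt_hasW b).mpr trivial, fun _ => (infPt_hasW b).mpr (hl b hγ)⟩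
    have h2 := image_closure_subset_closure_image (f := hval (R := R)) hcont
      (mem_image_of_mem _ h1)
    refine closure_mono ?_ h2
    rintro _ ⟨_, ⟨l, rfl⟩, rfl⟩
    apply hsupp
    intro h
    have h3 : hasW (pt R l) l := by
      rw [h]; exact (infPt_hasW l).mpr trivial
    exact lt_irrefl l ((infPt_hasW (R := R) (B := Iio l) (hB := fun _ ha _ hb => lt_trans hb ha) l).mp h3)
  · exact subset_closure (hsupp s hs)

/-- The copy of the segment. -/
noncomputable def segEmb (R : RhoSys W1) (l : Seg) : KK R :=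
  infPt R {w | od w < (l : Ordinal.{0})} fun _ ha _ hb => (od_lt_od.mpr hb).trans ha

theorem segEmb_embedding : IsEmbedding (segEmb R) := by
  classical
  have hcont : Continuous (segEmb R) := by
    apply Continuous.subtype_mk
    apply continuous_pi
    rintro (n | b)
    · exact continuous_const
    · have : (fun l : Seg => (segEmb R l).1 (Sum.inr b)) =
          fun l : Seg => decide (od b < (l : Ordinal.{0})) := by
        funext l
        apply Bool.eq_iff_iff.mpr
        rw [decide_eq_true_eq]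
        exact infPt_hasW b
      have h2 : Continuous fun l : Seg => decide (od b < (l : Ordinal.{0})) := by
        apply (IsLocallyConstant.iff_exists_open _).mpr _ |>.continuous
        intro l
        by_cases h : od b < (l : Ordinal.{0})
        · exact ⟨{l : Seg | od b < (l : Ordinal.{0})}, (isClopen_above _).isOpen, h,
            fun l' hl' => by
              have : od b < (l' : Ordinal.{0}) := hl'
              simp [h, this]⟩
        · exact ⟨{l : Seg | od b < (l : Ordinal.{0})}ᶜ, (isClopen_above _).compl.isOpen, h,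
            fun l' hl' => by
              have : ¬ od b < (l' : Ordinal.{0}) := hl'
              simp [h, this]⟩
      rw [← this] at h2
      exact h2
  have hinj : Function.Injective (segEmb R) := by
    have key : ∀ l l' : Seg, (l : Ordinal.{0}) < (l' : Ordinal.{0}) → segEmb R l ≠ segEmb R l' := by
      intro l l' hl h
      obtain ⟨w, hw⟩ := exists_od (lt_of_lt_of_le hl l'.2)
      have h1 : hasW (segEmb R l') w := (infPt_hasW w).mpr (by
        show od w < _
        rw [hw]; exact hl)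
      rw [← h] at h1
      have h2 : od w < (l : Ordinal.{0}) := (infPt_hasW w).mp h1
      rw [hw] at h2
      exact lt_irrefl _ h2
    intro l l' h
    by_contra hne
    have hne' : (l : Ordinal.{0}) ≠ l' := fun h => hne (Subtype.ext h)
    rcases lt_or_gt_of_ne hne' with h1 | h1
    · exact key l l' h1 h
    · exact key l' l h1 h.symm
  exact (hcont.isClosedEmbedding hinj).isEmbedding

/-- Composition with a homeomorphism. -/
noncomputable def pre {L : Set (KK R)} (φ : L ≃ₜ Seg) : C(Seg, ℝ) →L[ℝ] C(L, ℝ) where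
  toFun g := g.comp ⟨φ, φ.continuous⟩
  map_add' _ _ := rfl
  map_smul' _ _ := rfl
  cont := ContinuousMap.continuous_precomp _

/-- No linear extension operator from a copy of the segment. -/
theorem no_extension (L : Set (KK R)) (φ : L ≃ₜ Seg) (E : C(L, ℝ) →L[ℝ] C(KK R, ℝ))
    (hE : ∀ (f : C(L, ℝ)) (x : L), E f x = f x) : False := by
  apply no_embedding (E.comp (pre φ)) (A := 1) one_pos
  intro g
  rw [one_mul, ContinuousMap.norm_le _ (norm_nonneg _)]
  intro l
  have h1 : g l = E (pre φ g) (φ.symm l : L) := by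
    rw [hE]
    show g l = g (φ (φ.symm l))
    rw [φ.apply_symm_apply]
  rw [h1]
  exact (E (pre φ g)).norm_coe_le_norm _

theorem exists_rhoSys : Nonempty (RhoSys W1) := by
  obtain ⟨P, h1, h2, h3, h4, h5⟩ := exists_P (W := W1) W1_Iio
  exact ⟨⟨P, h1, h2, h3, h4, h5⟩⟩

end

section

open Set Filter Topology
open scoped Ordinal

/-- **Main theorem.** There is a scattered Valdivia compact space `K` containing a copy of
`[0, ω₁]` such that `C([0, ω₁])` does not embed into `C(K)`, and such that no copy `L` of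
`[0, ω₁]` in `K` admits a linear extension operator from `C(L)` to `C(K)`. -/
theorem result : ∃ (K : Type) (_ : TopologicalSpace K) (_ : CompactSpace K) (_ : T2Space K),
    IsScattered K ∧ IsValdivia K ∧ (∃ L : Set K, Nonempty (L ≃ₜ Seg)) ∧
    ¬ EmbedsInto C(Seg, ℝ) C(K, ℝ) ∧
    ∀ L : Set K, Nonempty (L ≃ₜ Seg) →
      ¬ ∃ E : C(L, ℝ) →L[ℝ] C(K, ℝ), ∀ (f : C(L, ℝ)) (x : L), E f x = f x := by
  obtain ⟨R⟩ := exists_rhoSys
  refine ⟨KK R, inferInstance, inferInstance, inferInstance, ?_, valdivia, ?_, not_embedsInto, ?_⟩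
  · intro S hS
    obtain ⟨x, hx, U, hU, h⟩ := scattered R S hS
    exact ⟨x, hx, U, hU, h⟩
  · exact ⟨range (segEmb R), ⟨segEmb_embedding.toHomeomorph.symm⟩⟩
  · rintro L ⟨φ⟩ ⟨E, hE⟩
    exact no_extension L φ E hE

end

end Pool.Agent.Results.MP_25ed80_an.NoEmbedding
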